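import Pool.Agent.Lib.TGJ_h11.Ex

/-!
# TANK G, block C: the ramification divisor on a normal local ring `S`

One denominator `c` in `S` works for all primes of height one, so the ramification divisor is
bounded by the divisor of a nonzero element of `S` (finite support).
-/

set_option autoImplicit false

namespace Pool.Agent.TGJ

section

variable {k K : Type*} [Field k] [Field K] [Algebra k K]

/-- Every element of `K` is a fraction of elements of `S`. -/
def IsFracS (S : Subring K) : Prop := ∀ x : K, ∃ a ∈ S, ∃ b ∈ S, b ≠ 0 ∧ x = a / b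

/-- `O` is a localisation of `S`. -/
structure IsLocS (S O : Subring K) : Prop where
  le : S ≤ O
  loc : ∀ x ∈ O, ∃ a ∈ S, ∃ b ∈ S, b ≠ 0 ∧ b⁻¹ ∈ O ∧ x = a / b

theorem IsFracS.common {S : Subring K} (h : IsFracS S) (s : Finset K) :
    ∃ c ∈ S, c ≠ 0 ∧ ∀ x ∈ s, c * x ∈ S := by
  classical
  choose a ha b hb hb0 hx using h
  refine ⟨∏ y ∈ s, b y, S.prod_mem fun y _ => hb y, Finset.prod_ne_zero_iff.2 fun y _ => hb0 y, ?_⟩
  intro x hxs
  have h1 : b x * x = a x := by
    have h2 := hx x
    rw [eq_div_iff (hb0 x)] at h2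
    rw [mul_comm]
    exact h2
  rw [← Finset.prod_erase_mul s _ hxs, mul_assoc, h1]
  exact S.mul_mem (S.prod_mem fun y _ => hb y) (ha x)

/-- The quotient rule. -/
theorem der_div (d : Derivation k K K) (a : K) {b : K} (hb0 : b ≠ 0) :
    d (a / b) = b⁻¹ * b⁻¹ * (b * d a - a * d b) := by
  have h2 : d a = d (a / b * b) := by rw [div_mul_cancel₀ _ hb0]
  rw [Derivation.leibniz, smul_eq_mul, smul_eq_mul] at h2
  have h3 : d (a / b) = (d a - a / b * d b) / b := by
    rw [h2]
    field_simp
    ring
  rw [h3]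
  field_simp

/-- A derivation preserving `S` preserves the localisations of `S`. -/
theorem Pres.loc {S O : Subring K} (h : IsLocS S O) {d : Derivation k K K} (hd : Pres S d) :
    Pres O d := by
  intro x hx
  obtain ⟨a, ha, b, hb, hb0, hbi, rfl⟩ := h.loc x hx
  rw [der_div d a hb0]
  exact O.mul_mem (O.mul_mem hbi hbi) (O.sub_mem (O.mul_mem (h.le hb) (h.le (hd a ha)))
    (O.mul_mem (h.le ha) (h.le (hd b hb))))

theorem Pres.smul {S : Subring K} {d : Derivation k K K} (hd : Pres S d) {c : K} (hc : c ∈ S) :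
    Pres S (c • d) := fun x hx => by
  rw [Derivation.smul_apply, smul_eq_mul]
  exact S.mul_mem hc (hd x hx)

/-- If `c d` maps the generators of a localisation of a finitely generated algebra into `S`
then `c d` preserves `S`. -/
theorem exists_pres_S {S : Subring K} (hS : LocFG k S) (hF : IsFracS S)
    {ι : Type*} [Finite ι] (d : ι → Derivation k K K) :
    ∃ c ∈ S, c ≠ 0 ∧ ∀ i, Pres S (c • d i) := by
  classical
  cases nonempty_fintype ι
  obtain ⟨A, hA, hloc⟩ := hS
  obtain ⟨c, hc, hc0, hcx⟩ := hF.common (Finset.univ.biUnion fun i => A.image (d i))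
  refine ⟨c, hc, hc0, fun i => ?_⟩
  have hCa : ∀ a ∈ A, c * d i a ∈ S := fun a ha =>
    hcx _ (Finset.mem_biUnion.2 ⟨i, Finset.mem_univ i, Finset.mem_image_of_mem _ ha⟩)
  have hCx : ∀ x ∈ Algebra.adjoin k (A : Set K), c * d i x ∈ S := by
    intro x hx
    induction hx using Algebra.adjoin_induction with
    | mem x hx => exact hCa x hx
    | algebraMap c => rw [Derivation.map_algebraMap, mul_zero]; exact S.zero_mem
    | add x y _ _ h1 h2 => rw [map_add, mul_add]; exact S.add_mem h1 h2
    | mul x y hx hy h1 h2 =>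
      rw [Derivation.leibniz, smul_eq_mul, smul_eq_mul]
      have h3 : c * (x * d i y + y * d i x) = x * (c * d i y) + y * (c * d i x) := by ring
      rw [h3]
      exact S.add_mem (S.mul_mem (hA x hx) h2) (S.mul_mem (hA y hy) h1)
  intro x hx
  obtain ⟨a, ha, b, hb, hb0, hbi, rfl⟩ := hloc x hx
  have h1 : (c • d i) (a / b) = b⁻¹ * b⁻¹ * (b * (c * d i a) - a * (c * d i b)) := by
    rw [der_div _ _ hb0, Derivation.smul_apply, Derivation.smul_apply, smul_eq_mul, smul_eq_mul]
  rw [h1]
  exact S.mul_mem (S.mul_mem hbi hbi) (S.sub_mem (S.mul_mem (hA b hb) (hCx a ha))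
    (S.mul_mem (hA a ha) (hCx b hb)))

variable {n : ℕ} {f : Fin n → K} {D : Fin n → Derivation k K K}

/-- The divisor `R_f` is bounded by the divisor of a nonzero element of `S`; all the tuples
exist. -/
theorem rram_bound {S : Subring K} (hS : LocFG k S) (hF : IsFracS S) (hf : ∀ j, f j ∈ S)
    (hD : Dual f D) : ∃ c ∈ S, c ≠ 0 ∧ (∀ i, Pres S (c • D i)) ∧
      ∀ (O : Subring K) (ord : K → ℤ), IsOrd O ord → IsLocS S O →
        HasD k O f ∧ (rram k O ord f : ℤ) ≤ n * ord c := by
  obtain ⟨c, hc, hc0, hcd⟩ := exists_pres_S hS hF D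
  refine ⟨c, hc, hc0, hcd, fun O ord hO hSO => ?_⟩
  have h1 : jac (fun i => c • D i) f = c ^ n := by
    rw [jac_smul (fun _ => c), hD.jac_eq, mul_one, Finset.prod_const, Finset.card_univ,
      Fintype.card_fin]
  have h2 : ∀ i, Pres O (c • D i) := fun i => Pres.loc hSO (hcd i)
  have h3 : jac (fun i => c • D i) f ≠ 0 := by rw [h1]; exact pow_ne_zero _ hc0
  refine ⟨⟨fun i => c • D i, h2, h3⟩, ?_⟩
  have h4 := rram_le hO (fun j => hSO.le (hf j)) h2 h3
  rw [h1, hO.pow hc0] at h4
  exact h4

/-- For an order ring the elements of negative order have inverse in the ring. -/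
theorem IsOrd.isFracS {O : Subring K} {ord : K → ℤ} (hO : IsOrd O ord) : IsFracS O := by
  intro x
  obtain ⟨c, hc, hc0, hcx⟩ := hO.denom x
  exact ⟨c * x, hcx, c, hc, hc0, by rw [mul_div_cancel_left₀ _ hc0]⟩

/-- If every derivation `D j` preserves `O` then `R_f` does not contain `O`. -/
theorem rram_eq_zero {O : Subring K} {ord : K → ℤ} (hO : IsOrd O ord) (hf : ∀ j, f j ∈ O)
    (hD : Dual f D) (h : ∀ j, Pres O (D j)) : rram k O ord f = 0 := by
  have h1 := rram_le hO hf h (by rw [hD.jac_eq]; exact one_ne_zero)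
  rw [hD.jac_eq, hO.one] at h1
  have h2 : (0 : ℤ) ≤ rram k O ord f := Int.natCast_nonneg _
  exact_mod_cast le_antisymm h1 h2

/-- `R_f` does not contain `O` if and only if the dual derivations preserve `O`. -/
theorem rram_eq_zero_iff {O : Subring K} {ord : K → ℤ} (hO : IsOrd O ord) (hf : ∀ j, f j ∈ O)
    (hD : Dual f D) (h : HasD k O f) : rram k O ord f = 0 ↔ ∀ j, Pres O (D j) :=
  ⟨fun h0 j => pres_of_rram hO hf h hD h0 j, rram_eq_zero hO hf hD⟩

/-- The dual tuple of `f` with `f_j` replaced by `G`. -/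
theorem Dual.update (hD : Dual f D) (j : Fin n) {G : K} (hG : D j G ≠ 0) :
    Dual (Function.update f j G) (fun i => if i = j then (D j G)⁻¹ • D j else
      D i - (D i G * (D j G)⁻¹) • D j) := by
  classical
  constructor
  · intro i l
    by_cases hi : i = j
    · subst hi
      rw [if_pos rfl]
      by_cases hl : l = i
      · subst hl
        rw [Function.update_self, if_pos rfl, Derivation.smul_apply, smul_eq_mul,
          inv_mul_cancel₀ hG]
      · rw [Function.update_of_ne hl, Derivation.smul_apply, smul_eq_mul, hD.dual,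
          if_neg (Ne.symm hl), mul_zero]
    · rw [if_neg hi]
      by_cases hl : l = j
      · subst hl
        rw [Function.update_self, if_neg hi, Derivation.sub_apply, Derivation.smul_apply,
          smul_eq_mul, mul_assoc, inv_mul_cancel₀ hG, mul_one, sub_self]
      · rw [Function.update_of_ne hl, Derivation.sub_apply, Derivation.smul_apply, smul_eq_mul,
          hD.dual, hD.dual, if_neg (Ne.symm hl), mul_zero, sub_zero]
  · intro d z
    have h1 : ∀ l, d (Function.update f j G l) * (if l = j then (D j G)⁻¹ • D j else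
        D l - (D l G * (D j G)⁻¹) • D j : Derivation k K K) z =
        (if l = j then d G * ((D j G)⁻¹ * D j z) else
          d (f l) * (D l z - D l G * (D j G)⁻¹ * D j z)) := by
      intro l
      by_cases hl : l = j
      · subst hl
        rw [if_pos rfl, if_pos rfl, Function.update_self, Derivation.smul_apply, smul_eq_mul]
      · rw [if_neg hl, if_neg hl, Function.update_of_ne hl, Derivation.sub_apply,
          Derivation.smul_apply, smul_eq_mul]
    rw [Finset.sum_congr rfl fun l _ => h1 l, hD.span d z,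
      ← Finset.add_sum_erase _ _ (Finset.mem_univ j),
      ← Finset.add_sum_erase _ (fun l => if l = j then _ else _) (Finset.mem_univ j), if_pos rfl]
    have h2 : ∑ l ∈ Finset.univ.erase j, (if l = j then d G * ((D j G)⁻¹ * D j z) else
          d (f l) * (D l z - D l G * (D j G)⁻¹ * D j z)) =
        ∑ l ∈ Finset.univ.erase j, d (f l) * D l z -
          (∑ l ∈ Finset.univ.erase j, d (f l) * D l G) * ((D j G)⁻¹ * D j z) := by
      rw [Finset.sum_mul, ← Finset.sum_sub_distrib]
      refine Finset.sum_congr rfl fun l hl => ?_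
      rw [if_neg (Finset.ne_of_mem_erase hl)]
      ring
    have h3 : d G = d (f j) * D j G + ∑ l ∈ Finset.univ.erase j, d (f l) * D l G := by
      rw [hD.span d G, ← Finset.add_sum_erase _ _ (Finset.mem_univ j)]
    rw [h2, h3]
    field_simp
    ring

end

end Pool.Agent.TGJ
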