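import Pool.Agent.Lib.TGJ.Iface
import Pool.Agent.Lib.TGJ_h11.Glob

/-!
# TANK G, block C, R7: existence of the dual derivations (language of `TGJ.Iface`)
-/

set_option autoImplicit false

namespace Pool.Agent.TGJ

open Pool.Agent.TGh4 (Disc ordV)

universe u

section

variable {k K : Type u} [Field k] [Field K] [Algebra k K] {S : Subalgebra k K} {res : S →ₐ[k] k}
  {V : ValuationSubring K}

/-- `S` is a localisation of a finitely generated algebra. -/
theorem NPt.locFG (h : NPt S res) : LocFG k S.toSubring := by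
  obtain ⟨A, ⟨G, hG⟩, hAS, hloc⟩ := h.fg
  refine ⟨G, fun a ha => hAS (hG ▸ ha), fun x hx => ?_⟩
  obtain ⟨a, b, hb, hab⟩ := hloc ⟨x, hx⟩
  have hb' : res (Subalgebra.inclusion hAS b) ≠ 0 := by rw [hb]; exact one_ne_zero
  have h0 : (b : K) ≠ 0 := by
    intro h0
    apply hb'
    have : Subalgebra.inclusion hAS b = 0 := Subtype.ext h0
    rw [this, map_zero]
  refine ⟨a, hG ▸ a.2, b, hG ▸ b.2, h0, h.inv _ hb', ?_⟩
  rw [eq_div_iff h0]
  exact hab

/-- `K` is the field of fractions of `S`. -/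
theorem NPt.isFracS (h : NPt S res) : IsFracS S.toSubring := by
  intro x
  obtain ⟨a, b, hb, hab⟩ := h.frac x
  exact ⟨a, a.2, b, b.2, hb, by rw [eq_div_iff hb]; exact hab⟩

/-- `K / k` is finitely generated. -/
theorem NPt.essFiniteType (h : NPt S res) : Algebra.EssFiniteType k K := by
  obtain ⟨G, hG1, hG2⟩ := h.locFG
  refine IntermediateField.fg_top_iff.1 ⟨G, ?_⟩
  rw [eq_top_iff]
  intro x _
  have h1 : ∀ y ∈ Algebra.adjoin k (G : Set K), y ∈ IntermediateField.adjoin k (G : Set K) :=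
    fun y hy => IntermediateField.algebra_adjoin_le_adjoin k _ hy
  have h2 : ∀ y ∈ S.toSubring, y ∈ IntermediateField.adjoin k (G : Set K) := by
    intro y hy
    obtain ⟨a, ha, b, hb, -, -, rfl⟩ := hG2 y hy
    exact div_mem (h1 a ha) (h1 b hb)
  obtain ⟨a, ha, b, hb, -, rfl⟩ := h.isFracS x
  exact div_mem (h2 a ha) (h2 b hb)

theorem isOrd_of_isDiv (h : IsDiv S V) : IsOrd V.toSubring (ordV V) :=
  ⟨fun _ _ hx hy => TGh4.ordV_mul V hx hy, fun _ hx => TGh4.mem_iff h.disc hx⟩

theorem isLocS_of_isDiv (h : IsDiv S V) : IsLocS S.toSubring V.toSubring := by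
  constructor
  · exact fun a ha => h.le a ha
  · intro x hx
    obtain ⟨a, ha, b, hb, hb1, hab⟩ := h.loc x hx
    have hb0 : b ≠ 0 := by
      rintro rfl
      rw [map_zero] at hb1
      exact zero_ne_one hb1
    refine ⟨a, ha, b, hb, hb0, ?_, ?_⟩
    · change b⁻¹ ∈ V
      rw [← ValuationSubring.valuation_le_one_iff, map_inv₀, hb1, inv_one]
    · rw [eq_div_iff hb0]
      exact hab

variable {n : ℕ} {f : Fin n → S} {D : Fin n → Derivation k K K}

/-- One bound for all prime divisors. -/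
theorem ramV_bound (h : NPt S res) (hD : Dual (fun i => (f i : K)) D) :
    ∃ c : S, c ≠ 0 ∧ ∀ V, IsDiv S V → HasD k V.toSubring (fun i => (f i : K)) ∧
      (ramV V f : ℤ) ≤ n * ordV V (c : K) := by
  obtain ⟨c, hc, hc0, -, hb⟩ := rram_bound h.locFG h.isFracS (fun j => (f j).2) hD
  refine ⟨⟨c, hc⟩, fun h0 => hc0 (congrArg Subtype.val h0), fun V hV => ?_⟩
  exact hb V.toSubring (ordV V) (isOrd_of_isDiv hV) (isLocS_of_isDiv hV)

/-- The ramification divisor has finitely many components. -/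
theorem ramV_finite (h : NPt S res) (hD : Dual (fun i => (f i : K)) D)
    (hfin : ∀ g : S, g ≠ 0 → {V : ValuationSubring K | IsDiv S V ∧ g ∈ cen S V}.Finite) :
    {V : ValuationSubring K | IsDiv S V ∧ ramV V f ≠ 0}.Finite := by
  obtain ⟨c, hc0, hb⟩ := ramV_bound h hD
  refine (hfin c hc0).subset ?_
  rintro V ⟨hV, hr⟩
  refine ⟨hV, ?_⟩
  rw [mem_cen hV.le]
  have h1 := (hb V hV).2
  have hcK : (c : K) ≠ 0 := fun h0 => hc0 (Subtype.ext h0)
  rw [TGh4.lt_one_iff hV.disc hcK]
  have h2 : (0 : ℤ) < ramV V f := by exact_mod_cast Nat.pos_of_ne_zero hr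
  by_contra hcon
  have h3 : ordV V (c : K) ≤ 0 := not_lt.1 hcon
  have h4 : (n : ℤ) * ordV V (c : K) ≤ 0 :=
    mul_nonpos_of_nonneg_of_nonpos (Int.natCast_nonneg _) h3
  linarith

/-- `K / k(f)` is separable as soon as the inseparable degree divides a number which is not zero
and less than `p`. -/
theorem sep_of_insep_dvd {F L : Type*} [Field F] [Field L] [Algebra F L] [FiniteDimensional F L]
    {p : ℕ} (hp : p.Prime) [CharP F p] {r : ℕ} (hr0 : r ≠ 0) (hrp : r < p)
    (hdvd : Field.finInsepDegree F L ∣ r) : Algebra.IsSeparable F L := by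
  have : ExpChar F p := ExpChar.prime hp
  obtain ⟨m, hm⟩ : ∃ m, Field.finInsepDegree F L = p ^ m :=
    finInsepDegree_eq_pow F L p
  rw [hm] at hdvd
  have h1 : m = 0 := by
    by_contra hm0
    have h2 : p ∣ r := (dvd_pow_self p hm0).trans hdvd
    have h3 := Nat.le_of_dvd (Nat.pos_of_ne_zero hr0) h2
    omega
  rw [h1, pow_zero] at hm
  rw [← separableClosure.eq_top_iff]
  exact IntermediateField.finrank_eq_one_iff_eq_top.1 hm

end

end Pool.Agent.TGJ
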