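import Mathlib

/-!
# TANK G, block C: the ramification divisor of `f = (f_1, .., f_n)`

`O` is the ring of a discrete valuation `ord` of `K / k`.  The coefficient of the ramification
divisor `R_f` at `O` is the minimum of `ord det (d_i f_j)` over all `n`-tuples of `k`-derivations
of `K` which preserve `O`.
-/

set_option autoImplicit false

namespace Pool.Agent.TGJ

section

variable {k K : Type*} [Field k] [Field K] [Algebra k K]

/-- `O` is the ring of the discrete valuation `ord`. -/
structure IsOrd (O : Subring K) (ord : K → ℤ) : Prop where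
  mul : ∀ x y, x ≠ 0 → y ≠ 0 → ord (x * y) = ord x + ord y
  mem : ∀ x, x ≠ 0 → (x ∈ O ↔ 0 ≤ ord x)

/-- The derivation preserves `O`. -/
def Pres (O : Subring K) (d : Derivation k K K) : Prop := ∀ x ∈ O, d x ∈ O

variable {n : ℕ}

/-- The Jacobian determinant `det (d_i f_j)`. -/
noncomputable def jac (d : Fin n → Derivation k K K) (f : Fin n → K) : K :=
  (Matrix.of fun i j => d i (f j)).det

/-- `D` is dual to `f` and spans the derivations. -/
structure Dual (f : Fin n → K) (D : Fin n → Derivation k K K) : Prop where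
  dual : ∀ i j, D i (f j) = if i = j then 1 else 0
  span : ∀ (d : Derivation k K K) (z : K), d z = ∑ j, d (f j) * D j z

/-- The coefficient of `R_f` at `O`. -/
noncomputable def rram (k : Type*) {K : Type*} [Field k] [Field K] [Algebra k K] {n : ℕ}
    (O : Subring K) (ord : K → ℤ) (f : Fin n → K) : ℕ :=
  sInf {m : ℕ | ∃ d : Fin n → Derivation k K K, (∀ i, Pres O (d i)) ∧ jac d f ≠ 0 ∧
    ord (jac d f) = m}

/-- There is an `n`-tuple of derivations preserving `O` with `det (d_i f_j) ≠ 0`. -/
def HasD (k : Type*) {K : Type*} [Field k] [Field K] [Algebra k K] {n : ℕ}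
    (O : Subring K) (f : Fin n → K) : Prop :=
  ∃ d : Fin n → Derivation k K K, (∀ i, Pres O (d i)) ∧ jac d f ≠ 0

theorem jac_mem {O : Subring K} {d : Fin n → Derivation k K K} (hd : ∀ i, Pres O (d i))
    {f : Fin n → K} (hf : ∀ j, f j ∈ O) : jac d f ∈ O := by
  unfold jac
  rw [Matrix.det_apply]
  refine O.sum_mem fun σ _ => ?_
  have h1 : ∏ i, (Matrix.of fun i j => d i (f j)) (σ i) i ∈ O :=
    O.prod_mem fun i _ => hd _ _ (hf i)
  rcases Int.units_eq_one_or (Equiv.Perm.sign σ) with h | h
  · rw [h, one_smul]; exact h1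
  · rw [h, Units.neg_smul, one_smul]; exact O.neg_mem h1

variable {O : Subring K} {ord : K → ℤ} {f : Fin n → K} {D : Fin n → Derivation k K K}

/-- The minimum is attained. -/
theorem exists_min (hO : IsOrd O ord) (hf : ∀ j, f j ∈ O) (h : HasD k O f) :
    ∃ d : Fin n → Derivation k K K, (∀ i, Pres O (d i)) ∧ jac d f ≠ 0 ∧
      ord (jac d f) = rram k O ord f := by
  obtain ⟨d, hd, h0⟩ := h
  have h1 : 0 ≤ ord (jac d f) := (hO.mem _ h0).1 (jac_mem hd hf)
  obtain ⟨m, hm⟩ := Int.eq_ofNat_of_zero_le h1
  exact Nat.sInf_mem (s := {m : ℕ | ∃ d : Fin n → Derivation k K K, (∀ i, Pres O (d i)) ∧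
    jac d f ≠ 0 ∧ ord (jac d f) = m}) ⟨m, d, hd, h0, hm⟩

theorem rram_le {d : Fin n → Derivation k K K} (hO : IsOrd O ord) (hf : ∀ j, f j ∈ O)
    (hd : ∀ i, Pres O (d i)) (h0 : jac d f ≠ 0) : (rram k O ord f : ℤ) ≤ ord (jac d f) := by
  have h1 : 0 ≤ ord (jac d f) := (hO.mem _ h0).1 (jac_mem hd hf)
  obtain ⟨m, hm⟩ := Int.eq_ofNat_of_zero_le h1
  rw [hm]
  exact_mod_cast Nat.sInf_le (s := {m : ℕ | ∃ d : Fin n → Derivation k K K,
    (∀ i, Pres O (d i)) ∧ jac d f ≠ 0 ∧ ord (jac d f) = m}) ⟨d, hd, h0, hm⟩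

/-- Change of one function. -/
theorem jac_update (hD : Dual f D) (d : Fin n → Derivation k K K) (j : Fin n) (G : K) :
    jac d (Function.update f j G) = D j G * jac d f := by
  classical
  unfold jac
  have h1 : (Matrix.of fun i l => d i (Function.update f j G l)) =
      (Matrix.of fun i l => d i (f l)).updateCol j
        (∑ l, D l G • fun i => (Matrix.of fun i l => d i (f l)) i l) := by
    ext i l
    rw [Matrix.updateCol_apply, Matrix.of_apply]
    by_cases hl : l = j
    · subst hl
      rw [if_pos rfl, Function.update_self, hD.span (d i) G, Finset.sum_apply]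
      refine Finset.sum_congr rfl fun m _ => ?_
      rw [Pi.smul_apply, Matrix.of_apply, smul_eq_mul, mul_comm]
    · rw [if_neg hl, Function.update_of_ne hl, Matrix.of_apply]
  rw [h1]
  have h2 : ∑ l, D l G • (fun i => (Matrix.of fun i l => d i (f l)) i l) =
      fun i => (Matrix.of fun i l => d i (f l)).mulVec (fun l => D l G) i := by
    funext i
    rw [Finset.sum_apply, Matrix.mulVec, dotProduct]
    refine Finset.sum_congr rfl fun m _ => ?_
    rw [Pi.smul_apply, smul_eq_mul, mul_comm]
  rw [h2]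
  have h3 := Matrix.cramer_eq_adjugate_mulVec (Matrix.of fun i l => d i (f l))
    ((Matrix.of fun i l => d i (f l)).mulVec fun l => D l G)
  have h4 := congrFun h3 j
  rw [Matrix.cramer_apply, Matrix.mulVec_mulVec, Matrix.adjugate_mul, Matrix.smul_mulVec,
    Matrix.one_mulVec, Pi.smul_apply, smul_eq_mul] at h4
  rw [mul_comm]
  exact h4

/-- `HasD` after the change of one function. -/
theorem HasD.update (h : HasD k O f) (hD : Dual f D) (j : Fin n) {G : K} (hG : D j G ≠ 0) :
    HasD k O (Function.update f j G) := by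
  obtain ⟨d, hd, h0⟩ := h
  exact ⟨d, hd, by rw [jac_update hD]; exact mul_ne_zero hG h0⟩

/-- The poles of `D_j` are bounded by `R_f`. -/
theorem pole (hO : IsOrd O ord) (hf : ∀ j, f j ∈ O) (h : HasD k O f) (hD : Dual f D)
    (j : Fin n) {g : K} (hg : g ∈ O) (hDg : D j g ≠ 0) :
    -(rram k O ord f : ℤ) ≤ ord (D j g) := by
  obtain ⟨d, hd, h0, h1⟩ := exists_min hO hf h
  have h2 : jac d (Function.update f j g) ∈ O := jac_mem hd fun l => by
    by_cases hl : l = j
    · rw [hl, Function.update_self]; exact hg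
    · rw [Function.update_of_ne hl]; exact hf l
  rw [jac_update hD] at h2
  have h3 := (hO.mem _ (mul_ne_zero hDg h0)).1 h2
  rw [hO.mul _ _ hDg h0, h1] at h3
  linarith

/-- If `R_f` does not contain `O` then `D_j` preserves `O`. -/
theorem pres_of_rram (hO : IsOrd O ord) (hf : ∀ j, f j ∈ O) (h : HasD k O f) (hD : Dual f D)
    (h0 : rram k O ord f = 0) (j : Fin n) : Pres O (D j) := by
  intro g hg
  by_cases h1 : D j g = 0
  · rw [h1]; exact O.zero_mem
  · have h2 := pole hO hf h hD j hg h1
    rw [h0] at h2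
    exact (hO.mem _ h1).2 (by simpa using h2)

/-- **`R_f + div (D_j G) = R_f'`**, where `f'` is `f` with `f_j` replaced by `G`. -/
theorem rram_update (hO : IsOrd O ord) (hf : ∀ j, f j ∈ O) (h : HasD k O f) (hD : Dual f D)
    (j : Fin n) {G : K} (hG : G ∈ O) (hG0 : D j G ≠ 0) :
    (rram k O ord (Function.update f j G) : ℤ) = rram k O ord f + ord (D j G) := by
  have hf' : ∀ l, Function.update f j G l ∈ O := fun l => by
    by_cases hl : l = j
    · rw [hl, Function.update_self]; exact hG
    · rw [Function.update_of_ne hl]; exact hf l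
  refine le_antisymm ?_ ?_
  · obtain ⟨d, hd, h0, h1⟩ := exists_min hO hf h
    have h2 := rram_le hO hf' hd (by rw [jac_update hD]; exact mul_ne_zero hG0 h0)
    rw [jac_update hD, hO.mul _ _ hG0 h0, h1] at h2
    linarith
  · obtain ⟨d, hd, h0, h1⟩ := exists_min hO hf' (h.update hD j hG0)
    rw [← h1]
    rw [jac_update hD] at h0 ⊢
    have h3 := right_ne_zero_of_mul h0
    rw [hO.mul _ _ hG0 h3]
    have h2 := rram_le hO hf hd h3
    linarith

/-- `R_f` does not depend on the order of the functions. -/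
theorem rram_perm (σ : Equiv.Perm (Fin n)) (hord : ∀ x, ord (-x) = ord x) :
    rram k O ord (f ∘ σ) = rram k O ord f := by
  classical
  have key : ∀ (d : Fin n → Derivation k K K), jac d (f ∘ σ) = jac d f ∨
      jac d (f ∘ σ) = - jac d f := by
    intro d
    unfold jac
    have h1 : (Matrix.of fun i j => d i ((f ∘ σ) j)) =
        (Matrix.of fun i j => d i (f j)).submatrix id σ := by
      ext i j
      rfl
    rw [h1, Matrix.det_permute']
    rcases Int.units_eq_one_or (Equiv.Perm.sign σ) with h | h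
    · left; rw [h]; simp
    · right; rw [h]; simp
  unfold rram
  congr 1
  ext m
  constructor
  · rintro ⟨d, hd, h0, h1⟩
    rcases key d with h | h
    · exact ⟨d, hd, by rw [← h]; exact h0, by rw [← h]; exact h1⟩
    · rw [h] at h0 h1
      exact ⟨d, hd, by simpa using h0, by rw [← hord]; exact h1⟩
  · rintro ⟨d, hd, h0, h1⟩
    rcases key d with h | h
    · exact ⟨d, hd, by rw [h]; exact h0, by rw [h]; exact h1⟩
    · exact ⟨d, hd, by rw [h]; simpa using h0, by rw [h, hord]; exact h1⟩

end

end Pool.Agent.TGJ
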