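import Pool.Agent.Lib.TGJ_h11.Ram
import Pool.Agent.Lib.ALL_h83.SepV

/-!
# TANK G, block C: existence of the preserving derivations

For the ring `O` of a discrete valuation which is the localisation of a finitely generated
algebra, a multiple of every derivation preserves `O`.
-/

set_option autoImplicit false

namespace Pool.Agent.TGJ

section

variable {k K : Type*} [Field k] [Field K] [Algebra k K]

/-- `O` is a localisation of the finitely generated algebra `k[A]`. -/
def LocFG (k : Type*) {K : Type*} [Field k] [Field K] [Algebra k K] (O : Subring K) : Prop :=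
  ∃ A : Finset K, (∀ a ∈ Algebra.adjoin k (A : Set K), a ∈ O) ∧
    ∀ x ∈ O, ∃ a ∈ Algebra.adjoin k (A : Set K), ∃ b ∈ Algebra.adjoin k (A : Set K),
      b ≠ 0 ∧ b⁻¹ ∈ O ∧ x = a / b

variable {O : Subring K} {ord : K → ℤ}

theorem IsOrd.one (hO : IsOrd O ord) : ord 1 = 0 := by
  have h := hO.mul 1 1 one_ne_zero one_ne_zero
  rw [mul_one] at h
  linarith

theorem IsOrd.inv (hO : IsOrd O ord) {x : K} (hx : x ≠ 0) : ord x⁻¹ = - ord x := by
  have h := hO.mul x x⁻¹ hx (inv_ne_zero hx)
  rw [mul_inv_cancel₀ hx, hO.one] at h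
  linarith

theorem IsOrd.neg (hO : IsOrd O ord) (x : K) : ord (-x) = ord x := by
  by_cases hx : x = 0
  · rw [hx, neg_zero]
  · have h1 := hO.mul (-1) (-1) (neg_ne_zero.2 one_ne_zero) (neg_ne_zero.2 one_ne_zero)
    rw [neg_mul_neg, one_mul, hO.one] at h1
    have h2 := hO.mul (-1) x (neg_ne_zero.2 one_ne_zero) hx
    rw [neg_one_mul] at h2
    linarith

theorem IsOrd.pow (hO : IsOrd O ord) {x : K} (hx : x ≠ 0) (m : ℕ) : ord (x ^ m) = m * ord x := by
  induction m with
  | zero => rw [pow_zero, hO.one]; simp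
  | succ m ih =>
    rw [pow_succ, hO.mul _ _ (pow_ne_zero _ hx) hx, ih]
    push_cast
    ring

theorem IsOrd.div (hO : IsOrd O ord) {x y : K} (hx : x ≠ 0) (hy : y ≠ 0) :
    ord (x / y) = ord x - ord y := by
  rw [div_eq_mul_inv, hO.mul _ _ hx (inv_ne_zero hy), hO.inv hy]
  ring

theorem IsOrd.prod {ι : Type*} (hO : IsOrd O ord) (s : Finset ι) (x : ι → K)
    (hx : ∀ i ∈ s, x i ≠ 0) : ord (∏ i ∈ s, x i) = ∑ i ∈ s, ord (x i) := by
  classical
  induction s using Finset.induction_on with
  | empty => rw [Finset.prod_empty, Finset.sum_empty, hO.one]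
  | insert a s ha ih =>
    rw [Finset.prod_insert ha, Finset.sum_insert ha, hO.mul _ _
      (hx a (Finset.mem_insert_self a s))
      (Finset.prod_ne_zero_iff.2 fun i hi => hx i (Finset.mem_insert_of_mem hi)),
      ih fun i hi => hx i (Finset.mem_insert_of_mem hi)]

/-- Every element of `K` has a denominator in `O`. -/
theorem IsOrd.denom (hO : IsOrd O ord) (y : K) : ∃ c ∈ O, c ≠ 0 ∧ c * y ∈ O := by
  by_cases hy : y ∈ O
  · exact ⟨1, O.one_mem, one_ne_zero, by rw [one_mul]; exact hy⟩
  · have hy0 : y ≠ 0 := fun h => hy (h ▸ O.zero_mem)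
    have h1 : ord y < 0 := by
      rw [hO.mem y hy0] at hy
      exact not_le.1 hy
    refine ⟨y⁻¹, (hO.mem _ (inv_ne_zero hy0)).2 ?_, inv_ne_zero hy0, ?_⟩
    · rw [hO.inv hy0]
      linarith
    · rw [inv_mul_cancel₀ hy0]
      exact O.one_mem

/-- A multiple of every derivation preserves `O`. -/
theorem exists_pres (hO : IsOrd O ord) (hA : LocFG k O) (d : Derivation k K K) :
    ∃ c ∈ O, c ≠ 0 ∧ Pres O (c • d) := by
  classical
  obtain ⟨A, hA, hloc⟩ := hA
  choose c hc hc0 hcd using fun y => hO.denom y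
  obtain ⟨C, hC⟩ : ∃ C, C = ∏ a ∈ A, c (d a) := ⟨_, rfl⟩
  have hCO : C ∈ O := by rw [hC]; exact O.prod_mem fun a _ => hc _
  have hC0 : C ≠ 0 := by rw [hC]; exact Finset.prod_ne_zero_iff.2 fun a _ => hc0 _
  have hCa : ∀ a ∈ A, C * d a ∈ O := by
    intro a ha
    rw [hC, ← Finset.prod_erase_mul A _ ha, mul_assoc]
    exact O.mul_mem (O.prod_mem fun a _ => hc _) (hcd _)
  have hCx : ∀ x ∈ Algebra.adjoin k (A : Set K), C * d x ∈ O := by
    intro x hx
    induction hx using Algebra.adjoin_induction with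
    | mem x hx => exact hCa x hx
    | algebraMap c => rw [Derivation.map_algebraMap, mul_zero]; exact O.zero_mem
    | add x y _ _ h1 h2 => rw [map_add, mul_add]; exact O.add_mem h1 h2
    | mul x y hx hy h1 h2 =>
      rw [Derivation.leibniz, smul_eq_mul, smul_eq_mul]
      have h3 : C * (x * d y + y * d x) = x * (C * d y) + y * (C * d x) := by ring
      rw [h3]
      exact O.add_mem (O.mul_mem (hA x hx) h2) (O.mul_mem (hA y hy) h1)
  refine ⟨C, hCO, hC0, ?_⟩
  intro x hx
  obtain ⟨a, ha, b, hb, hb0, hbi, rfl⟩ := hloc x hx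
  have h1 : (C • d) (a / b) = b⁻¹ * b⁻¹ * (b * (C * d a) - a * (C * d b)) := by
    rw [Derivation.smul_apply, smul_eq_mul]
    have h2 : d a = d (a / b * b) := by rw [div_mul_cancel₀ _ hb0]
    rw [Derivation.leibniz, smul_eq_mul, smul_eq_mul] at h2
    have h3 : d (a / b) = (d a - a / b * d b) / b := by
      rw [h2]
      field_simp
      ring
    rw [h3]
    field_simp
  rw [h1]
  exact O.mul_mem (O.mul_mem hbi hbi) (O.sub_mem (O.mul_mem (hA b hb) (hCx a ha))
    (O.mul_mem (hA a ha) (hCx b hb)))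

variable {n : ℕ} {f : Fin n → K} {D : Fin n → Derivation k K K}

theorem jac_smul (c : Fin n → K) (d : Fin n → Derivation k K K) (f : Fin n → K) :
    jac (fun i => c i • d i) f = (∏ i, c i) * jac d f := by
  unfold jac
  rw [← Matrix.det_mul_column c (Matrix.of fun i j => d i (f j))]
  congr 1

theorem Dual.jac_eq (hD : Dual f D) : jac D f = 1 := by
  classical
  unfold jac
  have h1 : (Matrix.of fun i j => D i (f j)) = 1 := by
    ext i j
    rw [Matrix.of_apply, hD.dual, Matrix.one_apply]
  rw [h1, Matrix.det_one]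

/-- Existence of the tuple. -/
theorem hasD_of_dual (hO : IsOrd O ord) (hA : LocFG k O) (hD : Dual f D) : HasD k O f := by
  choose c _ hc0 hcd using fun i => exists_pres hO hA (D i)
  refine ⟨fun i => c i • D i, hcd, ?_⟩
  rw [jac_smul, hD.jac_eq, mul_one]
  exact Finset.prod_ne_zero_iff.2 fun i _ => hc0 i

/-- Only the determinant matters: existence from ANY tuple with non zero determinant. -/
theorem hasD_of_jac (hO : IsOrd O ord) (hA : LocFG k O) (d : Fin n → Derivation k K K)
    (h : jac d f ≠ 0) : HasD k O f := by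
  choose c _ hc0 hcd using fun i => exists_pres hO hA (d i)
  refine ⟨fun i => c i • d i, hcd, ?_⟩
  rw [jac_smul]
  exact mul_ne_zero (Finset.prod_ne_zero_iff.2 fun i _ => hc0 i) h

/-- A dual tuple determines the determinants: `det (d_i f'_j) = det (d_i f_j) det (D_i f'_j)`. -/
theorem jac_mul (hD : Dual f D) (d : Fin n → Derivation k K K) (g : Fin n → K) :
    jac d g = jac d f * jac D g := by
  classical
  unfold jac
  rw [← Matrix.det_mul]
  congr 1
  ext i j
  rw [Matrix.of_apply, hD.span (d i) (g j), Matrix.mul_apply]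
  rfl

/-- **Change of the whole tuple**: `R_g = R_f + div det (D_i g_j)`. -/
theorem rram_change (hO : IsOrd O ord) (hf : ∀ j, f j ∈ O) (hD : Dual f D) (h : HasD k O f)
    {g : Fin n → K} (hg : ∀ j, g j ∈ O) (h0 : jac D g ≠ 0) :
    (rram k O ord g : ℤ) = rram k O ord f + ord (jac D g) := by
  refine le_antisymm ?_ ?_
  · obtain ⟨d, hd, hd0, h1⟩ := exists_min hO hf h
    have h2 := rram_le hO hg hd (by rw [jac_mul hD]; exact mul_ne_zero hd0 h0)
    rw [jac_mul hD, hO.mul _ _ hd0 h0, h1] at h2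
    exact h2
  · have h' : HasD k O g := by
      obtain ⟨d, hd, hd0⟩ := h
      exact ⟨d, hd, by rw [jac_mul hD]; exact mul_ne_zero hd0 h0⟩
    obtain ⟨d, hd, hd0, h1⟩ := exists_min hO hg h'
    rw [← h1]
    rw [jac_mul hD] at hd0
    have h3 := left_ne_zero_of_mul hd0
    rw [jac_mul hD d g, hO.mul _ _ h3 h0]
    have h2 := rram_le hO hf hd h3
    linarith

end

section

universe u

variable {k K : Type u} [Field k] [Field K] [Algebra k K]

/-- Existence of the dual system of a separating transcendence basis. -/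
theorem exists_Dual [Algebra.EssFiniteType k K] (n : ℕ)
    (hn : Algebra.trdeg k K = n) (w : Fin n → K)
    (hsep : Algebra.IsSeparable (IntermediateField.adjoin k (Set.range w)) K) :
    ∃ D : Fin n → Derivation k K K, Dual w D := by
  obtain ⟨d, h1, h2⟩ := ALL83.exists_dual (k := k) n hn w hsep
  exact ⟨d, h1, fun δ z => h2 δ z⟩

end

end Pool.Agent.TGJ
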