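import Pool.Agent.Lib.TGJ_h11.ExD
import Pool.Agent.Lib.TGJ_h11.Ex

/-!
# TANK G, block C, R7: `ExDual` from the inputs of R1, R4, R5
-/

set_option autoImplicit false

namespace Pool.Agent.TGJ

open Pool.Agent.TGh4 (Disc ordV)

universe u

section

variable (k K : Type u) [Field k] [Field K] [Algebra k K]

/-- Input of R1 (helper82). -/
def InR1 : Prop := ∀ (n : ℕ) (f : Fin n → K), AlgebraicIndependent k f →
  FiniteDimensional (IntermediateField.adjoin k (Set.range f)) K →
  {x : icf k f →ₐ[k] k | Over0 f x}.Finite ∧ ∀ x : icf k f →ₐ[k] k, Over0 f x → rho f x ≠ 0 ∧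
    Field.finInsepDegree (IntermediateField.adjoin k (Set.range f)) K ∣ rho f x

/-- Input of R4 (helper88). -/
def InR4 : Prop := ∀ (S : Subalgebra k K) (res : S →ₐ[k] k), NPt S res →
    ∀ n : ℕ, Algebra.trdeg k K = (n : ℕ) → ∀ (f : Fin n → S), Proper S.val res f →
    AlgebraicIndependent k (fun i => (f i : K)) ∧
    FiniteDimensional (IntermediateField.adjoin k (Set.range fun i => (f i : K))) K ∧
    ∃ x, Over0 (fun i => (f i : K)) x ∧ Doms S.val res (fun i => (f i : K)) x

/-- Input of R5 (helper51). -/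
def InR5 : Prop := ∀ (S : Subalgebra k K) (res : S →ₐ[k] k), NPt S res → ∀ g : S, g ≠ 0 →
  {V : ValuationSubring K | IsDiv S V ∧ g ∈ cen S V}.Finite

variable {k K}

theorem exDual_of (h1 : InR1 k K) (h4 : InR4 k K) (h5 : InR5 k K) : ExDual k K := by
  intro hk p hp hchar S res hS n hn f hf hrho
  obtain ⟨hai, hfd, x, hx0, hxd⟩ := h4 S res hS n hn f hf
  obtain ⟨hfin, hr⟩ := h1 n (fun i => (f i : K)) hai hfd
  have hess : Algebra.EssFiniteType k K := hS.essFiniteType
  have hle : rho (fun i => (f i : K)) x ≤ Rho S.val res f := by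
    unfold Rho
    have hfin' : {y : icf k (fun i => S.val (f i)) →ₐ[k] k | Over0 _ y ∧ Doms S.val res _ y}.Finite :=
      hfin.subset fun y hy => hy.1
    rw [finsum_mem_eq_finite_toFinset_sum _ hfin']
    exact Finset.single_le_sum
      (f := fun y => rho (fun i => S.val (f i)) y) (fun _ _ => Nat.zero_le _)
      (hfin'.mem_toFinset.2 ⟨hx0, hxd⟩)
  have hchF : CharP (IntermediateField.adjoin k (Set.range fun i => (f i : K))) p :=
    charP_of_injective_algebraMap (algebraMap k _).injective p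
  have hsep : Algebra.IsSeparable (IntermediateField.adjoin k (Set.range fun i => (f i : K))) K :=
    sep_of_insep_dvd hp (hr x hx0).1 (lt_of_le_of_lt hle hrho) (hr x hx0).2
  obtain ⟨D, hD⟩ := exists_Dual n hn (fun i => (f i : K)) hsep
  obtain ⟨c, hc, hb⟩ := ramV_bound hS hD
  exact ⟨⟨D, hD⟩, fun V hV => (hb V hV).1, ramV_finite hS hD (h5 S res hS)⟩

end

end Pool.Agent.TGJ
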