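import Pool.Agent.Lib.TGJ_h11.ExD3
import Pool.Agent.Lib.TGJ_h88.Prop

/-!
# TANK G, block C, R7: `ExDual` from R1
-/

set_option autoImplicit false

namespace Pool.Agent.TGJ

universe u

variable {k K : Type u} [Field k] [Field K] [Algebra k K]

theorem inR4 [IsAlgClosed k] : InR4 k K := fun _ _ hS _ hn _ hf => by
  obtain ⟨x, hx0, hxd, -, -⟩ := hS.exists_pt hf
  exact ⟨hS.algebraicIndependent hn hf, hS.finiteDimensional hf, x, hx0, hxd⟩

theorem exDual_of_R1 (h1 : IsAlgClosed k → InR1 k K) : ExDual k K := by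
  intro hk
  exact exDual_of' (h1 hk) inR4 hk

theorem rho_pos_of_R1 (h1 : IsAlgClosed k → InR1 k K) (hk : IsAlgClosed k) (S : Subalgebra k K)
    (res : S →ₐ[k] k) (hS : NPt S res) (n : ℕ) (hn : Algebra.trdeg k K = (n : ℕ)) (f : Fin n → S)
    (hf : Proper S.val res f) : 0 < Rho S.val res f :=
  rho_pos_of (h1 hk) inR4 S res hS n hn f hf

end Pool.Agent.TGJ
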