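import Pool.Agent.Lib.TGJ_h11.Curve

/-!
# TANK G, block C, J6: the induced derivation on the residue field of a curve

Packaging of `TGJ_h11.Curve`: the residue field `M = Frac (A / q)`, the `p`-basis from
separability, the main statement `curve_der`.
-/

set_option autoImplicit false
set_option linter.unusedSectionVars false

namespace Pool.Agent.TGJ

open Pool.Agent.TG51 (InLoc locP mem_locP valP)
open Pool.Agent.TGh43 (PD PId JId)

section PBasis

variable {k K : Type*} [Field k] [Field K] [Algebra k K] {p : ℕ} [hp : Fact p.Prime] [CharP K p]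
  {n : ℕ}

/-- The sums of the `f^μ c_μ^p`. -/
def PExpr (p : ℕ) (f : Fin n → K) (x : K) : Prop :=
  ∃ c : (Fin n → Fin p) → K, x = ∑ μ, (∏ i, f i ^ (μ i : ℕ)) * c μ ^ p

theorem PExpr.add {f : Fin n → K} {x y : K} (hx : PExpr p f x) (hy : PExpr p f y) :
    PExpr p f (x + y) := by
  obtain ⟨c, rfl⟩ := hx
  obtain ⟨d, rfl⟩ := hy
  refine ⟨fun μ => c μ + d μ, ?_⟩
  rw [← Finset.sum_add_distrib]
  refine Finset.sum_congr rfl fun μ _ => ?_
  rw [add_pow_char]
  ring

theorem PExpr.pmul {f : Fin n → K} {x : K} (hx : PExpr p f x) (c : K) :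
    PExpr p f (c ^ p * x) := by
  obtain ⟨d, rfl⟩ := hx
  refine ⟨fun μ => c * d μ, ?_⟩
  rw [Finset.mul_sum]
  refine Finset.sum_congr rfl fun μ _ => ?_
  rw [mul_pow]
  ring

theorem PExpr.fmul {f : Fin n → K} {x : K} (hx : PExpr p f x) (j : Fin n) :
    PExpr p f (f j * x) := by
  obtain ⟨d, rfl⟩ := hx
  rw [TGh43.mul_comp f j d]
  exact ⟨_, rfl⟩

theorem PExpr.zero (f : Fin n → K) : PExpr p f 0 :=
  ⟨fun _ => 0, by
    rw [Finset.sum_eq_zero]
    intro μ _
    rw [zero_pow hp.out.ne_zero, mul_zero]⟩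

theorem PExpr.one (f : Fin n → K) : PExpr p f 1 := by
  classical
  have hz : NeZero p := ⟨hp.out.ne_zero⟩
  refine ⟨fun μ => if μ = 0 then 1 else 0, ?_⟩
  rw [Finset.sum_eq_single (0 : Fin n → Fin p)]
  · beta_reduce
    rw [if_pos rfl, one_pow, mul_one]
    exact (Finset.prod_eq_one fun i _ => pow_zero _).symm
  · intro μ _ hμ
    beta_reduce
    rw [if_neg hμ, zero_pow hp.out.ne_zero, mul_zero]
  · intro h
    exact absurd (Finset.mem_univ _) h

theorem PExpr.monmul {f : Fin n → K} (μ : Fin n → Fin p) {x : K} (hx : PExpr p f x) :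
    PExpr p f ((∏ i, f i ^ (μ i : ℕ)) * x) := by
  classical
  have h1 : ∀ (s : Finset (Fin n)) (e : Fin n → ℕ), PExpr p f ((∏ i ∈ s, f i ^ e i) * x) := by
    intro s e
    induction s using Finset.induction_on with
    | empty => rw [Finset.prod_empty, one_mul]; exact hx
    | insert i s hi ih =>
      rw [Finset.prod_insert hi, mul_assoc]
      have h2 : ∀ m : ℕ, PExpr p f (f i ^ m * ((∏ i ∈ s, f i ^ e i) * x)) := by
        intro m
        induction m with
        | zero => rw [pow_zero, one_mul]; exact ih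
        | succ m ihm => rw [pow_succ', mul_assoc]; exact ihm.fmul i
      exact h2 _
  exact h1 _ _

theorem PExpr.mul {f : Fin n → K} {x y : K} (hx : PExpr p f x) (hy : PExpr p f y) :
    PExpr p f (x * y) := by
  classical
  obtain ⟨c, rfl⟩ := hx
  rw [Finset.sum_mul]
  have h1 : ∀ s : Finset (Fin n → Fin p),
      PExpr p f (∑ μ ∈ s, (∏ i, f i ^ (μ i : ℕ)) * c μ ^ p * y) := by
    intro s
    induction s using Finset.induction_on with
    | empty => rw [Finset.sum_empty]; exact PExpr.zero f
    | insert μ s hμ ih =>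
      rw [Finset.sum_insert hμ]
      refine PExpr.add ?_ ih
      rw [mul_assoc]
      exact PExpr.monmul μ (hy.pmul (c μ))
  exact h1 _

theorem PExpr.pw {f : Fin n → K} (c : K) : PExpr p f (c ^ p) := by
  have := (PExpr.one (p := p) f).pmul c
  rwa [mul_one] at this

theorem PExpr.pow {f : Fin n → K} {x : K} (hx : PExpr p f x) (m : ℕ) : PExpr p f (x ^ m) := by
  induction m with
  | zero => rw [pow_zero]; exact PExpr.one f
  | succ m ih => rw [pow_succ]; exact ih.mul hx

theorem PExpr.inv {f : Fin n → K} {x : K} (hx : PExpr p f x) : PExpr p f x⁻¹ := by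
  by_cases h0 : x = 0
  · rw [h0, inv_zero]; exact PExpr.zero f
  · have h1 : x⁻¹ = x ^ (p - 1) * (x⁻¹) ^ p := by
      have h2 : p = (p - 1) + 1 := by have := hp.out.pos; omega
      have h3 : (x⁻¹) ^ p = (x⁻¹) ^ (p - 1) * x⁻¹ := by
        conv_lhs => rw [h2]
        rw [pow_succ]
      rw [h3, ← mul_assoc, ← mul_pow, mul_inv_cancel₀ h0, one_pow, one_mul]
    rw [h1]
    exact (hx.pow _).mul (PExpr.pw _)

/-- The elements with a `p`-expansion form a subfield. -/
def pexpField (p : ℕ) [hp : Fact p.Prime] [CharP K p] (f : Fin n → K) : Subfield K where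
  carrier := {x | PExpr p f x}
  mul_mem' := fun hx hy => PExpr.mul hx hy
  one_mem' := PExpr.one f
  add_mem' := fun hx hy => PExpr.add hx hy
  zero_mem' := PExpr.zero f
  neg_mem' := by
    intro x hx
    have h1 : -x = (-1 : K) ^ p * x := by
      have h2 : (-1 : K) ^ p = -1 := by
        have := neg_one_pow_expChar K p
        exact this
      rw [h2, neg_one_mul]
    change PExpr p f (-x)
    rw [h1]
    exact PExpr.pmul hx _
  inv_mem' := fun _ hx => PExpr.inv hx

theorem mem_pexpField {f : Fin n → K} {x : K} : x ∈ pexpField p f ↔ PExpr p f x := Iff.rfl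

/-- A separating transcendence basis is a `p`-basis (`k` perfect). -/
theorem pexpField_eq_top [PerfectField k] (f : Fin n → K)
    (hsep : Algebra.IsSeparable (IntermediateField.adjoin k (Set.range f)) K) (x : K) :
    PExpr p f x := by
  have : CharP k p := (algebraMap k K).charP (algebraMap k K).injective p
  have : ExpChar k p := ExpChar.prime hp.out
  have : ExpChar K p := ExpChar.prime hp.out
  have : PerfectRing k p := PerfectField.toPerfectRing p
  set F := IntermediateField.adjoin k (Set.range f) with hF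
  have : ExpChar F p := expChar_of_injective_algebraMap (algebraMap k F).injective p
  have hFE : ∀ y ∈ F, y ∈ pexpField p f := by
    intro y hy
    have h1 : F.toSubfield ≤ pexpField p f := by
      rw [hF, IntermediateField.adjoin_toSubfield, Subfield.closure_le]
      rintro y (⟨c, rfl⟩ | ⟨j, rfl⟩)
      · obtain ⟨d, hd⟩ := surjective_frobenius k p c
        rw [← hd, frobenius_def, map_pow]
        exact PExpr.pw _
      · have := (PExpr.one (p := p) f).fmul j
        rw [mul_one] at this
        exact this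
    exact h1 hy
  have h1 := IntermediateField.adjoin_simple_eq_adjoin_pow_expChar_of_isSeparable F K
    (Algebra.IsSeparable.isSeparable F x) p
  have h2 : x ∈ IntermediateField.adjoin F {x ^ p} := by
    rw [← h1]
    exact IntermediateField.mem_adjoin_simple_self F x
  have h3 : (IntermediateField.adjoin F {x ^ p}).toSubfield ≤ pexpField p f := by
    rw [IntermediateField.adjoin_toSubfield, Subfield.closure_le]
    rintro y (⟨c, rfl⟩ | hy)
    · exact hFE _ c.2
    · rw [Set.mem_singleton_iff] at hy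
      subst hy
      exact PExpr.pw _
  exact h3 h2

/-- The hypothesis of `TG_h43.PBase` from a separating transcendence basis. -/
theorem Dual.pd [PerfectField k] {f : Fin n → K} {D : Fin n → Derivation k K K} (hD : Dual f D)
    (hsep : Algebra.IsSeparable (IntermediateField.adjoin k (Set.range f)) K) : PD p f D :=
  ⟨fun i => by rw [hD.dual, if_pos rfl], fun i j hij => by rw [hD.dual, if_neg hij],
    fun a => pexpField_eq_top f hsep a⟩

end PBasis

section Res

variable {A K M : Type*} [CommRing A] [IsDomain A] [Field K] [Algebra A K] [IsFractionRing A K]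
  [Field M]

/-- The residue map of `A_q` on a field `M` with a map `A → M` with kernel `q`. -/
theorem exists_res (q : Ideal A) [hq : q.IsPrime] (r : A →+* M) (hr : RingHom.ker r = q) :
    ∃ φ : locP K q →+* M, (∀ a : A, φ ⟨algebraMap A K a, map_mem_locP K q a⟩ = r a) ∧
      (∀ x, φ x = 0 ↔ x ∈ maxP K q) := by
  classical
  have hinj : Function.Injective (algebraMap A K) := IsFractionRing.injective A K
  have hrs : ∀ s : A, s ∉ q → r s ≠ 0 := fun s hs h => hs (by rw [← hr]; exact h)
  have hex : ∀ x : locP K q, ∃ a s : A, s ∉ q ∧ (x : K) * algebraMap A K s = algebraMap A K a :=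
    fun x => x.2
  choose a s hs h using hex
  have key : ∀ (x : locP K q) (b t : A), t ∉ q → (x : K) * algebraMap A K t = algebraMap A K b →
      r (a x) / r (s x) = r b / r t := by
    intro x b t ht hb
    rw [div_eq_div_iff (hrs _ (hs x)) (hrs _ ht), ← map_mul, ← map_mul]
    congr 1
    apply hinj
    rw [map_mul, map_mul, ← h x, ← hb]
    ring
  have h1q : (1 : A) ∉ q := fun h => hq.ne_top ((Ideal.eq_top_iff_one _).2 h)
  let φ : locP K q →+* M :=
    { toFun := fun x => r (a x) / r (s x)
      map_one' := by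
        rw [key 1 1 1 h1q (by simp), map_one, div_one]
      map_mul' := fun x y => by
        rw [key (x * y) (a x * a y) (s x * s y) (fun hh => (hq.mem_or_mem hh).elim (hs x) (hs y))
          (by rw [map_mul, map_mul, ← h x, ← h y]; push_cast; ring), map_mul, map_mul,
          mul_div_mul_comm]
      map_zero' := by
        rw [key 0 0 1 h1q (by simp), map_zero, zero_div]
      map_add' := fun x y => by
        rw [key (x + y) (a x * s y + a y * s x) (s x * s y)
          (fun hh => (hq.mem_or_mem hh).elim (hs x) (hs y))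
          (by rw [map_mul, map_add, map_mul, map_mul, ← h x, ← h y]; push_cast; ring), map_add,
          map_mul, map_mul, map_mul, div_add_div _ _ (hrs _ (hs x)) (hrs _ (hs y))]
        ring }
  refine ⟨φ, fun b => ?_, fun x => ?_⟩
  · change r (a _) / r (s _) = r b
    rw [key _ b 1 h1q (by simp), map_one, div_one]
  · change r (a x) / r (s x) = 0 ↔ _
    rw [mem_maxP_iff (hs x) (h x), div_eq_zero_iff, or_iff_left (hrs _ (hs x))]
    constructor
    · intro h0
      rw [← hr]
      exact h0
    · intro h0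
      rw [← hr] at h0
      exact h0

/-- It is onto if `M` is the field of fractions of the image of `A`. -/
theorem res_surj {q : Ideal A} [hq : q.IsPrime] {φ : locP K q →+* M}
    (hφ : ∀ x, φ x = 0 ↔ x ∈ maxP K q)
    (hM : ∀ m : M, ∃ b c : locP K q, φ c ≠ 0 ∧ m = φ b / φ c) : Function.Surjective φ := by
  intro m
  obtain ⟨b, c, hc, rfl⟩ := hM m
  have h1 : c ∉ maxP K q := fun h => hc ((hφ c).2 h)
  refine ⟨b * ⟨(c : K)⁻¹, inv_mem_locP h1⟩, ?_⟩
  have h2 : φ ⟨(c : K)⁻¹, inv_mem_locP h1⟩ * φ c = 1 := by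
    rw [← map_mul, ← map_one φ]
    congr 1
    apply Subtype.ext
    have hc0 : (c : K) ≠ 0 := by
      intro h0
      apply h1
      have : c = 0 := Subtype.ext h0
      rw [this]
      exact (maxP K q).zero_mem
    exact inv_mul_cancel₀ hc0
  rw [map_mul, eq_div_iff hc, mul_assoc, h2, mul_one]

end Res

section Main

variable {k A K : Type*} [Field k] [CommRing A] [IsDomain A] [Field K] [Algebra k K]
  [Algebra A K] [IsFractionRing A K] [IsNoetherianRing A] [IsIntegrallyClosed A]
  {n : ℕ} {fA : Fin n → A} {D : Fin n → Derivation k K K}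

/-- The coefficient of `R_f` at the prime `P` of height one (`0` at the other primes). -/
noncomputable def ramP (k K : Type*) {A : Type*} [Field k] [CommRing A] [IsDomain A] [Field K]
    [Algebra k K] [Algebra A K] [IsFractionRing A K] [IsNoetherianRing A] [IsIntegrallyClosed A]
    {n : ℕ} (fA : Fin n → A) (P : Ideal A) : ℕ :=
  haveI := Classical.propDecidable
  if h : P.IsPrime ∧ P.height = 1 then
    haveI := h.1
    rram k (locP K P) (TGh4.ordV (valP K P h.2)) (fun i => algebraMap A K (fA i)) else 0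

theorem ramP_eq (fA : Fin n → A) (P : Ideal A) [hP : P.IsPrime] (h : P.height = 1) :
    ramP k K fA P =
      rram k (locP K P) (TGh4.ordV (valP K P h)) (fun i => algebraMap A K (fA i)) := by
  unfold ramP
  rw [dif_pos ⟨hP, h⟩]

/-- The image of `A` in `K`. -/
def imS (A K : Type*) [CommRing A] [Field K] [Algebra A K] : Subring K := (algebraMap A K).range

omit [IsNoetherianRing A] [IsIntegrallyClosed A] in
theorem isFracS_imS : IsFracS (imS A K) := by
  intro x
  obtain ⟨a, b, hb, rfl⟩ := IsFractionRing.div_surjective (A := A) x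
  refine ⟨_, ⟨a, rfl⟩, _, ⟨b, rfl⟩, ?_, rfl⟩
  rw [Ne, FaithfulSMul.algebraMap_eq_zero_iff]
  exact nonZeroDivisors.ne_zero hb

omit [IsNoetherianRing A] [IsIntegrallyClosed A] in
theorem isLocS_imS (q : Ideal A) [hq : q.IsPrime] : IsLocS (imS A K) (locP K q) := by
  constructor
  · rintro _ ⟨a, rfl⟩
    exact map_mem_locP K q a
  · rintro x ⟨a, s, hs, h⟩
    refine ⟨_, ⟨a, rfl⟩, _, ⟨s, rfl⟩, map_ne hs, ⟨1, s, hs, ?_⟩, ?_⟩
    · rw [map_one, inv_mul_cancel₀ (map_ne hs)]
    · rw [eq_div_iff (map_ne hs)]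
      exact h

/-- All tuples exist and `R_f ≤ n div c` for one `c ∈ A`, `c ≠ 0`. -/
theorem ramP_bound (hk : LocFG k (imS A K)) (hD : Dual (fun i => algebraMap A K (fA i)) D) :
    ∃ c : A, c ≠ 0 ∧ ∀ (P : Ideal A) [P.IsPrime] (h : P.height = 1),
      HasD k (locP K P) (fun i => algebraMap A K (fA i)) ∧
      (ramP k K fA P : ℤ) ≤ n * TGh4.ordV (valP K P h) (algebraMap A K c) := by
  obtain ⟨c, ⟨c, rfl⟩, hc0, -, h⟩ := rram_bound hk isFracS_imS (fun j => ⟨fA j, rfl⟩) hD
  refine ⟨c, fun h0 => hc0 (by rw [h0, map_zero]), fun P _ h1 => ?_⟩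
  rw [ramP_eq fA P h1]
  exact h _ _ (isOrd_valP h1) (isLocS_imS P)

/-- The ramification divisor has finite support. -/
theorem ramP_finite (hk : LocFG k (imS A K)) (hD : Dual (fun i => algebraMap A K (fA i)) D) :
    {P : Ideal A | ramP k K fA P ≠ 0}.Finite := by
  obtain ⟨c, hc0, h⟩ := ramP_bound hk hD
  refine (TG51.finite_height_one c hc0).subset ?_
  intro P hP
  have hP' : P.IsPrime ∧ P.height = 1 := by
    by_contra hcon
    apply hP
    unfold ramP
    rw [dif_neg hcon]
  obtain ⟨hPp, h1⟩ := hP'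
  refine ⟨hPp, h1, ?_⟩
  by_contra hcP
  have h2 := (h P h1).2
  have h3 : TGh4.ordV (valP K P h1) (algebraMap A K c) = 0 := by
    have hcK : algebraMap A K c ≠ 0 := map_ne hcP
    rw [TGh4.ordV_eq_zero_iff (TG51.disc_valP h1) hcK]
    have h4 : (valP K P h1).valuation (algebraMap A K c) ≤ 1 :=
      (ValuationSubring.valuation_le_one_iff _ _).2 (TG51.algebraMap_mem_valP h1 c)
    have h5 : ¬ (valP K P h1).valuation (algebraMap A K c) < 1 := by
      rw [TG51.valuation_lt_one_iff]
      exact hcP
    exact le_antisymm h4 (not_lt.1 h5)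
  rw [h3, mul_zero] at h2
  have h6 : ramP k K fA P = 0 := by
    have : (0 : ℤ) ≤ ramP k K fA P := Int.natCast_nonneg _
    exact_mod_cast le_antisymm h2 this
  exact hP h6

/-- If `R_f` does not contain `q` then the `D_i` preserve `A_q`. -/
theorem pres_of_ramP (hk : LocFG k (imS A K)) (hD : Dual (fun i => algebraMap A K (fA i)) D)
    (q : Ideal A) [hq : q.IsPrime]
    (h0 : ∀ P : Ideal A, P.IsPrime → P.height = 1 → P ≤ q → ramP k K fA P = 0) (i : Fin n) :
    Pres (locP K q) (D i) := by
  obtain ⟨c, -, h⟩ := ramP_bound hk hD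
  refine pres_locP q fun P hP h1 hPq => ?_
  have h2 := h0 P hP h1 hPq
  rw [ramP_eq fA P h1] at h2
  exact pres_of_rram (isOrd_valP h1) (fun j => map_mem_locP K P _) (h P h1).1 hD h2 i

variable {p : ℕ} [hp : Fact p.Prime] [CharP K p] {M : Type*} [Field M] [Algebra k M]

/-- **J6.**  `q` minimal over `(f_j : j ∈ J)` and not in `R_f`; `φ : A_q → M` the residue field:
the `D_i`, `i ∉ J`, induce derivations of `M`. -/
theorem curve_der (hk : LocFG k (imS A K)) (hD : Dual (fun i => algebraMap A K (fA i)) D)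
    (hPD : PD p (fun i => algebraMap A K (fA i)) D) {J : Finset (Fin n)} (q : Ideal A)
    [hq : q.IsPrime] (hmin : q ∈ (fId fA J).minimalPrimes)
    (h0 : ∀ P : Ideal A, P.IsPrime → P.height = 1 → P ≤ q → ramP k K fA P = 0)
    (hkq : ∀ c : k, algebraMap k K c ∈ locP K q) (φ : locP K q →+* M)
    (hφ : ∀ x, φ x = 0 ↔ x ∈ maxP K q) (hφs : Function.Surjective φ)
    (hφk : ∀ c : k, φ ⟨algebraMap k K c, hkq c⟩ = algebraMap k M c) {i : Fin n} (hi : i ∉ J) :
    ∃ (hd : Pres (locP K q) (D i)) (δ : Derivation k M M),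
      (∀ x : locP K q, δ (φ x) = φ ⟨D i x, hd x x.2⟩) ∧
      (∀ j : Fin n, δ (φ ⟨algebraMap A K (fA j), map_mem_locP K q _⟩) = if i = j then 1 else 0) ∧
      ∀ x : locP K q, (δ (φ x) ≠ 0 ↔ (⟨D i x, hd x x.2⟩ : locP K q) ∉ maxP K q) := by
  have hpres := pres_of_ramP hk hD q h0
  obtain ⟨δ, hδ⟩ := exists_residual (M := M) (locP K q) hkq φ hφk hφs (D i) (hpres i)
    fun x hx => (hφ _).2 (der_mem_maxP hPD hmin hpres hi ((hφ x).1 hx))
  refine ⟨hpres i, δ, hδ, fun j => ?_, fun x => ?_⟩
  · rw [hδ]
    have h1 := hD.dual i j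
    by_cases hij : i = j
    · rw [if_pos hij] at h1 ⊢
      rw [← map_one φ]
      congr 1
      exact Subtype.ext h1
    · rw [if_neg hij] at h1 ⊢
      rw [← map_zero φ]
      congr 1
      exact Subtype.ext h1
  · rw [hδ, Ne, hφ]

/-- For `J` = all indices except `i`: the maximal ideal of `A_q` is generated by the other
functions, and the induced derivation is `d/du`, `u` the residue of `f_i`. -/
theorem curve_max (hk : LocFG k (imS A K)) (hD : Dual (fun i => algebraMap A K (fA i)) D)
    (hPD : PD p (fun i => algebraMap A K (fA i)) D) {J : Finset (Fin n)} (q : Ideal A)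
    [hq : q.IsPrime] (hmin : q ∈ (fId fA J).minimalPrimes)
    (h0 : ∀ P : Ideal A, P.IsPrime → P.height = 1 → P ≤ q → ramP k K fA P = 0) :
    maxP K q = JId (fun i => algebraMap A K (fA i)) (locP K q) (fun i => map_mem_locP K q _) J :=
  maxP_eq hPD hmin (pres_of_ramP hk hD q h0)

end Main

end Pool.Agent.TGJ
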