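import Pool.Agent.Lib.TGJ_h11.DerPlB
import Pool.Agent.Lib.TGJ.DivS
import Pool.Agent.Lib.TGJ_h78.NPtB

/-!
# TANK G, block C, R9: `DerPl`
-/

set_option autoImplicit false

namespace Pool.Agent.TGJ

open Pool.Agent.TG51 (InLoc locP)
open scoped WithZero

universe u

section

variable {k K : Type u} [Field k] [Field K] [Algebra k K]

theorem proper_perm {S : Subalgebra k K} {res : S →ₐ[k] k} {L : Type u} [Field L] [Algebra k L]
    {φ : S →ₐ[k] L} {n m : ℕ} {f : Fin n → S} (h : Proper φ res f) (σ : Fin m → Fin n)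
    (hσ : Function.Surjective σ) : Proper φ res (f ∘ σ) := by
  refine ⟨fun i => h.1 (σ i), fun Q hQ hker hf => h.2 Q hQ hker fun i => ?_⟩
  obtain ⟨j, rfl⟩ := hσ i
  exact hf j

theorem cons_succAbove {α : Type*} {m : ℕ} (f : Fin (m + 1) → α) (i : Fin (m + 1)) :
    (Fin.cons (f i) (f ∘ i.succAbove) : Fin (m + 1) → α) = f ∘ (i.cycleRange.symm) := by
  funext j
  refine Fin.cases ?_ (fun j => ?_) j
  · rw [Fin.cons_zero, Function.comp_apply, Fin.cycleRange_symm_zero]
  · rw [Fin.cons_succ, Function.comp_apply, Function.comp_apply, Fin.cycleRange_symm_succ]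

/-- **R9.** -/
theorem derPl (hF : F2 k K) (hP : Perm k) : DerPl k K := by
  intro hk p hpp hchar S res hS m hm f hf hrho D hD i hR v hv hvw N hN G' ε hε c c' h
  have hp : Fact p.Prime := ⟨hpp⟩
  have hchK : CharP K p := charP_of_injective_algebraMap (algebraMap k K).injective p
  have i1 := hS.isFractionRing
  have i2 := hS.isNoetherianRing
  have i3 := hS.isIntegrallyClosed
  have i4 : Algebra.EssFiniteType k K := hS.essFiniteType
  have hPD := P78.pd_of_dual (p := p) hD
  -- the complete list of places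
  have hcons : Proper S.val res (Fin.cons (f i) (f ∘ i.succAbove) : Fin (m + 1) → S) := by
    rw [cons_succAbove]
    exact proper_perm hf _ (Equiv.surjective _)
  obtain ⟨J, hJ, μ, w, hw1, hw2, hw3, hw4⟩ := (hF hk S res hS m).1 hm (f i) (f ∘ i.succAbove) hcons
  have hker : ∀ a : S, S.val a = 0 → v a = 0 := by
    intro a ha
    have : a = 0 := Subtype.ext ha
    rw [this, map_zero]
  obtain ⟨j, hj⟩ := hw2 v hv hker hvw
  obtain ⟨hμ, hwj, -, hwj0⟩ := hw1 j
  have hne : ∀ j, w j (f i) ≠ 0 := (hw3 (f i) (hf.1 i)).1 hcons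
  have hsum := hw4 (f i) (hf.1 i) hne
  rw [cons_succAbove, hP] at hsum
  have hle : ordZ (w j (f i)) ≤ Rho S.val res f := by
    rw [hsum]
    calc ordZ (w j (f i)) = 1 * ordZ (w j (f i)) := (one_mul _).symm
      _ ≤ μ j * ordZ (w j (f i)) := Nat.mul_le_mul hμ le_rfl
      _ ≤ _ := Finset.single_le_sum (f := fun l => μ l * ordZ (w l (f i)))
          (fun _ _ => Nat.zero_le _) (Finset.mem_univ j)
  have hlt : w j (f i) < 1 := hwj.lt _ (hf.1 i)
  have hlog : WithZero.log (w j (f i)) < 0 := by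
    have h1 := (WithZero.log_lt_log (hne j) one_ne_zero).2 hlt
    rwa [WithZero.log_one] at h1
  have hu : ¬ (p : ℤ) ∣ WithZero.log (w j (f i)) := by
    intro hd
    rw [← dvd_neg] at hd
    have h1 := Int.le_of_dvd (by linarith) hd
    have h2 : (ordZ (w j (f i)) : ℤ) = - WithZero.log (w j (f i)) := by
      unfold ordZ
      rw [Int.toNat_of_nonneg (by linarith)]
    rw [← h2] at h1
    have h3 : p ≤ ordZ (w j (f i)) := by exact_mod_cast h1
    omega
  refine derPl_core hS (fun q hq x hx => by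
    obtain ⟨a, b, hb, e⟩ := hS.hartogs_prime q x hx
    exact ⟨a, b, hb, e⟩) f hf D hD hPD i hR (w j) hwj hwj0 hu N hN G' ε hε c c' ?_
  intro a ha b e hb hbe
  have hb' : v b ≠ 0 := by
    intro h0
    apply hb
    have h1 : v b ≤ v 0 := by rw [h0, map_zero]
    have h2 := (hj b 0).1 h1
    rw [map_zero] at h2
    exact le_antisymm h2 zero_le'
  have h1 := h a ha b e hb' hbe
  rw [← map_pow, ← map_mul] at h1 ⊢
  exact (hj _ _).1 h1

end

end Pool.Agent.TGJ
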