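import Pool.Agent.Lib.TGJ_h11.ExD2
import Pool.Agent.Lib.TGJ.DivS

/-!
# TANK G, block C, R7: `ExDual` from R1 and R4
-/

set_option autoImplicit false

namespace Pool.Agent.TGJ

universe u

variable {k K : Type u} [Field k] [Field K] [Algebra k K]

theorem inR5 : InR5 k K := fun _ _ hS g hg => hS.finite_div g hg

theorem exDual_of' (h1 : InR1 k K) (h4 : InR4 k K) : ExDual k K := exDual_of h1 h4 inR5

/-- `0 < Rho` (helper49's `RhoPos`). -/
theorem rho_pos_of (h1 : InR1 k K) (h4 : InR4 k K) (S : Subalgebra k K) (res : S →ₐ[k] k)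
    (hS : NPt S res) (n : ℕ) (hn : Algebra.trdeg k K = (n : ℕ)) (f : Fin n → S)
    (hf : Proper S.val res f) : 0 < Rho S.val res f := by
  obtain ⟨hai, hfd, x, hx0, hxd⟩ := h4 S res hS n hn f hf
  obtain ⟨hfin, hr⟩ := h1 n (fun i => (f i : K)) hai hfd
  have hfin' : {y : icf k (fun i => S.val (f i)) →ₐ[k] k | Over0 _ y ∧ Doms S.val res _ y}.Finite :=
    hfin.subset fun y hy => hy.1
  refine lt_of_lt_of_le (Nat.pos_of_ne_zero (hr x hx0).1) ?_
  unfold Rho
  rw [finsum_mem_eq_finite_toFinset_sum _ hfin']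
  exact Finset.single_le_sum
    (f := fun y => rho (fun i => S.val (f i)) y) (fun _ _ => Nat.zero_le _)
    (hfin'.mem_toFinset.2 ⟨hx0, hxd⟩)

end Pool.Agent.TGJ
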