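import Pool.Agent.Lib.TGJ_h11.Glob
import Pool.Agent.Lib.TGJ_h78.Krull
import Pool.Agent.Lib.TG_h43.PBase
import Pool.Agent.Lib.TG_h51.Div

/-!
# TANK G, block C, J6: the derivations at the generic points of a curve

`A` is a normal noetherian domain with field of fractions `K`, `f_1, .., f_n ∈ A` a `p`-basis of
`K` and `D_i` the dual derivations.  If the ramification divisor of `f` does not contain the prime
`q`, then the `D_i` preserve `A_q`; if moreover `q` is minimal over `(f_j : j ∈ J)`, then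
`q A_q = (f_j : j ∈ J)` and the `D_i`, `i ∉ J`, induce derivations of the residue field.
-/

set_option autoImplicit false
set_option linter.unusedSectionVars false

namespace Pool.Agent.TGJ

open Pool.Agent.TG51 (InLoc locP mem_locP valP)
open Pool.Agent.TGh43 (PD PId JId)

section Loc

variable {A K : Type*} [CommRing A] [IsDomain A] [Field K] [Algebra A K] [IsFractionRing A K]

theorem map_ne {q : Ideal A} {s : A} (hs : s ∉ q) : algebraMap A K s ≠ 0 := by
  intro h
  apply hs
  have : s = 0 := IsFractionRing.injective A K (by rw [h, map_zero])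
  rw [this]
  exact q.zero_mem

variable (K) in
/-- The maximal ideal of `A_q`. -/
def maxP (q : Ideal A) [hq : q.IsPrime] : Ideal (locP K q) where
  carrier := {x | ∃ a s : A, a ∈ q ∧ s ∉ q ∧ (x : K) * algebraMap A K s = algebraMap A K a}
  zero_mem' := ⟨0, 1, q.zero_mem, fun h => hq.ne_top ((Ideal.eq_top_iff_one _).2 h), by simp⟩
  add_mem' := by
    rintro x y ⟨a, s, ha, hs, h⟩ ⟨b, t, hb, ht, h'⟩
    refine ⟨a * t + b * s, s * t, q.add_mem (q.mul_mem_right _ ha) (q.mul_mem_right _ hb),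
      fun h => (hq.mem_or_mem h).elim hs ht, ?_⟩
    rw [map_mul, map_add, map_mul, map_mul, ← h, ← h']
    push_cast
    ring
  smul_mem' := by
    rintro c x ⟨a, s, ha, hs, h⟩
    obtain ⟨b, t, ht, h'⟩ := c.2
    refine ⟨b * a, t * s, q.mul_mem_left _ ha, fun h => (hq.mem_or_mem h).elim ht hs, ?_⟩
    rw [map_mul, map_mul, ← h, ← h', smul_eq_mul]
    push_cast
    ring

theorem mem_maxP {q : Ideal A} [hq : q.IsPrime] {x : locP K q} :
    x ∈ maxP K q ↔ ∃ a s : A, a ∈ q ∧ s ∉ q ∧ (x : K) * algebraMap A K s = algebraMap A K a :=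
  Iff.rfl

theorem mem_maxP_iff {q : Ideal A} [hq : q.IsPrime] {x : locP K q} {a s : A} (hs : s ∉ q)
    (h : (x : K) * algebraMap A K s = algebraMap A K a) : x ∈ maxP K q ↔ a ∈ q := by
  constructor
  · rintro ⟨b, t, hb, ht, h'⟩
    have h1 : a * t = b * s := by
      apply IsFractionRing.injective A K
      rw [map_mul, map_mul, ← h, ← h']
      ring
    have h2 : a * t ∈ q := by rw [h1]; exact q.mul_mem_right _ hb
    exact (hq.mem_or_mem h2).resolve_right ht
  · intro ha
    exact ⟨a, s, ha, hs, h⟩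

variable (K) in
theorem map_mem_locP (q : Ideal A) [hq : q.IsPrime] (a : A) : algebraMap A K a ∈ locP K q :=
  TG51.inLoc_algebraMap q hq.ne_top a

theorem map_mem_maxP {q : Ideal A} [hq : q.IsPrime] {a : A} :
    (⟨algebraMap A K a, map_mem_locP K q a⟩ : locP K q) ∈ maxP K q ↔ a ∈ q :=
  mem_maxP_iff (s := 1) (fun h => hq.ne_top ((Ideal.eq_top_iff_one _).2 h)) (by simp)

theorem inv_mem_locP {q : Ideal A} [hq : q.IsPrime] {x : locP K q} (hx : x ∉ maxP K q) :
    (x : K)⁻¹ ∈ locP K q := by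
  obtain ⟨a, s, hs, h⟩ := x.2
  have ha : a ∉ q := fun ha => hx ((mem_maxP_iff hs h).2 ha)
  refine ⟨s, a, ha, ?_⟩
  have h1 : (x : K) ≠ 0 := by
    intro h0
    rw [h0, zero_mul] at h
    exact map_ne (K := K) ha h.symm
  rw [← h, ← mul_assoc, inv_mul_cancel₀ h1, one_mul]

theorem isUnit_of_not_mem {q : Ideal A} [hq : q.IsPrime] {x : locP K q} (hx : x ∉ maxP K q) :
    IsUnit x := by
  refine IsUnit.of_mul_eq_one ⟨(x : K)⁻¹, inv_mem_locP hx⟩ (Subtype.ext ?_)
  have h1 : (x : K) ≠ 0 := by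
    intro h0
    apply hx
    have : x = 0 := Subtype.ext h0
    rw [this]
    exact (maxP K q).zero_mem
  exact mul_inv_cancel₀ h1

theorem one_not_mem_maxP (q : Ideal A) [hq : q.IsPrime] : (1 : locP K q) ∉ maxP K q := by
  have h1 : (1 : A) ∉ q := fun h => hq.ne_top ((Ideal.eq_top_iff_one _).2 h)
  rw [mem_maxP_iff (a := 1) h1 (by simp)]
  exact h1

instance maxP_isMaximal (q : Ideal A) [hq : q.IsPrime] : (maxP K q).IsMaximal := by
  rw [Ideal.isMaximal_iff]
  refine ⟨one_not_mem_maxP q, fun J x _ hx hxJ => ?_⟩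
  exact (Ideal.eq_top_iff_one _).1 (Ideal.eq_top_of_isUnit_mem J hxJ (isUnit_of_not_mem hx))

theorem isLocalRing_locP (q : Ideal A) [hq : q.IsPrime] : IsLocalRing (locP K q) := by
  refine IsLocalRing.of_unique_max_ideal ⟨maxP K q, maxP_isMaximal q, fun J hJ => ?_⟩
  refine hJ.eq_of_le (maxP_isMaximal (K := K) q).ne_top fun x hx => ?_
  by_contra hx'
  exact hJ.ne_top (Ideal.eq_top_of_isUnit_mem J hx (isUnit_of_not_mem hx'))

theorem maximalIdeal_locP (q : Ideal A) [hq : q.IsPrime] [IsLocalRing (locP K q)] :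
    IsLocalRing.maximalIdeal (locP K q) = maxP K q :=
  (IsLocalRing.eq_maximalIdeal (maxP_isMaximal q)).symm

/-- `A_q` is closed under `m`-th roots. -/
theorem root_locP [IsIntegrallyClosed A] (q : Ideal A) [hq : q.IsPrime] {m : ℕ} (hm : 0 < m)
    {b : K} (hb : b ^ m ∈ locP K q) : b ∈ locP K q := by
  obtain ⟨a, s, hs, h⟩ := hb
  have h1 : (b * algebraMap A K s) ^ m = algebraMap A K (a * s ^ (m - 1)) := by
    rw [mul_pow, map_mul, ← h, map_pow]
    have h2 : m = (m - 1) + 1 := by omega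
    conv_lhs => rw [h2]
    rw [pow_succ (algebraMap A K s)]
    rw [show m - 1 + 1 = m by omega]
    ring
  have h2 : IsIntegral A (b * algebraMap A K s) :=
    IsIntegral.of_pow hm (by rw [h1]; exact isIntegral_algebraMap)
  obtain ⟨c, hc⟩ := IsIntegrallyClosed.algebraMap_eq_of_integral h2
  exact ⟨c, s, hs, hc.symm⟩

end Loc

section Der

variable {k A K : Type*} [Field k] [CommRing A] [IsDomain A] [Field K] [Algebra k K]
  [Algebra A K] [IsFractionRing A K]

/-- (1) A derivation which preserves the local rings at the primes of height one below `q`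
preserves `A_q`. -/
theorem pres_locP [IsNoetherianRing A] [IsIntegrallyClosed A] (q : Ideal A) [hq : q.IsPrime]
    {d : Derivation k K K}
    (h : ∀ (P : Ideal A) (_ : P.IsPrime), P.height = 1 → P ≤ q → Pres (locP K P) d) :
    Pres (locP K q) d := by
  intro x hx
  obtain ⟨a, b, hb, hab⟩ := mem_loc_of_height_one (K := K) q (x := d x) fun P hP h1 hPq => by
    obtain ⟨a, s, hs, e⟩ := h P hP h1 hPq x (TG51.InLoc.of_le hPq hx)
    exact ⟨a, s, hs, by rw [eq_div_iff (map_ne hs)]; exact e⟩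
  exact ⟨a, b, hb, by rw [hab, div_mul_cancel₀ _ (map_ne hb)]⟩

variable {n : ℕ} {f : Fin n → K} {D : Fin n → Derivation k K K}

/-- The ideal of `A` generated by the `f_j`, `j ∈ J`. -/
def fId (fA : Fin n → A) (J : Finset (Fin n)) : Ideal A := Ideal.span (fA '' (J : Set (Fin n)))

/-- Minimality passes to `A_q`. -/
theorem maxP_minimal {fA : Fin n → A} {J : Finset (Fin n)} {q : Ideal A} [hq : q.IsPrime]
    (hf : ∀ i, algebraMap A K (fA i) ∈ locP K q) (hmin : q ∈ (fId fA J).minimalPrimes) :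
    maxP K q ∈ (JId (fun i => algebraMap A K (fA i)) (locP K q) hf J).minimalPrimes := by
  have hfq : ∀ j ∈ J, fA j ∈ q := fun j hj =>
    hmin.1.2 (Ideal.subset_span ⟨j, hj, rfl⟩)
  refine ⟨⟨(maxP_isMaximal q).isPrime, ?_⟩, ?_⟩
  · unfold JId
    rw [Ideal.span_le]
    rintro _ ⟨j, hj, rfl⟩
    exact map_mem_maxP.2 (hfq j hj)
  · rintro Q ⟨hQ, hJQ⟩ hQm x hx
    -- the trace on `A`
    let φ : A →+* locP K q := (algebraMap A K).codRestrict (locP K q) (map_mem_locP K q)
    have hφ : ∀ a : A, ((φ a : locP K q) : K) = algebraMap A K a := fun a => rfl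
    have hcp : (Q.comap φ).IsPrime := Ideal.comap_isPrime φ Q
    have h1 : q ≤ Q.comap φ := by
      refine hmin.2 ⟨hcp, ?_⟩ ?_
      · unfold fId
        rw [Ideal.span_le]
        rintro _ ⟨j, hj, rfl⟩
        exact hJQ (Ideal.subset_span ⟨j, hj, rfl⟩)
      · intro a ha
        exact map_mem_maxP.1 (hQm (Ideal.mem_comap.1 ha))
    obtain ⟨a, s, ha, hs, h⟩ := hx
    have h2 : x * φ s = φ a := Subtype.ext h
    have h3 : x * φ s ∈ Q := by rw [h2]; exact h1 ha
    refine (hQ.mem_or_mem h3).resolve_right fun h4 => hs ?_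
    exact map_mem_maxP.1 (hQm h4)

variable {p : ℕ} [hp : Fact p.Prime] [CharP K p]

/-- (2) The `D_i`, `i ∉ J`, preserve `q A_q`. -/
theorem der_mem_maxP [IsNoetherianRing A] [IsIntegrallyClosed A] {fA : Fin n → A}
    (hPD : PD p (fun i => algebraMap A K (fA i)) D) {J : Finset (Fin n)} {q : Ideal A}
    [hq : q.IsPrime] (hmin : q ∈ (fId fA J).minimalPrimes) (hpres : ∀ i, Pres (locP K q) (D i))
    {i : Fin n} (hi : i ∉ J) {x : locP K q} (hx : x ∈ maxP K q) :
    (⟨D i x, hpres i x x.2⟩ : locP K q) ∈ maxP K q :=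
  TGh43.der_mem_of_minimalPrimes hPD hpres (fun i => map_mem_locP K q _)
    (fun _ hb => root_locP q hp.out.pos hb) (maxP_minimal _ hmin) hi hx

/-- (2) `q A_q` is generated by the `f_j`, `j ∈ J`. -/
theorem maxP_eq [IsNoetherianRing A] [IsIntegrallyClosed A] {fA : Fin n → A}
    (hPD : PD p (fun i => algebraMap A K (fA i)) D) {J : Finset (Fin n)} {q : Ideal A}
    [hq : q.IsPrime] (hmin : q ∈ (fId fA J).minimalPrimes) (hpres : ∀ i, Pres (locP K q) (D i)) :
    maxP K q = JId (fun i => algebraMap A K (fA i)) (locP K q) (fun i => map_mem_locP K q _) J := by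
  have := isLocalRing_locP (K := K) q
  rw [← maximalIdeal_locP]
  refine TGh43.maximalIdeal_eq_JId hPD hpres (fun i => map_mem_locP K q _)
    (fun _ hb => root_locP q hp.out.pos hb) ?_
  rw [maximalIdeal_locP]
  exact maxP_minimal _ hmin

end Der

section Residual

variable {k K M : Type*} [Field k] [Field K] [Algebra k K] [Field M] [Algebra k M]

/-- (3) The derivation induced on a residue field. -/
theorem exists_residual (O : Subring K) (hkO : ∀ c : k, algebraMap k K c ∈ O) (φ : O →+* M)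
    (hφk : ∀ c : k, φ ⟨algebraMap k K c, hkO c⟩ = algebraMap k M c)
    (hsurj : Function.Surjective φ) (d : Derivation k K K) (hd : Pres O d)
    (hker : ∀ x : O, φ x = 0 → φ ⟨d x, hd x x.2⟩ = 0) :
    ∃ δ : Derivation k M M, ∀ x : O, δ (φ x) = φ ⟨d x, hd x x.2⟩ := by
  obtain ⟨s, hs⟩ : ∃ s : M → O, ∀ m, φ (s m) = m := ⟨_, Function.surjInv_eq hsurj⟩
  obtain ⟨g, hg⟩ : ∃ g : M → M, ∀ m, g m = φ ⟨d (s m), hd _ (s m).2⟩ := ⟨_, fun _ => rfl⟩
  have key : ∀ x : O, g (φ x) = φ ⟨d x, hd x x.2⟩ := by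
    intro x
    rw [hg]
    have h1 : φ (s (φ x) - x) = 0 := by rw [map_sub, hs, sub_self]
    have h2 := hker _ h1
    have h3 : (⟨d ((s (φ x) - x : O) : K), hd _ (s (φ x) - x).2⟩ : O) =
        ⟨d (s (φ x)), hd _ (s (φ x)).2⟩ - ⟨d x, hd x x.2⟩ := by
      apply Subtype.ext
      push_cast
      rw [map_sub]
    rw [h3, map_sub, sub_eq_zero] at h2
    exact h2
  have hadd : ∀ a b, g (a + b) = g a + g b := by
    intro a b
    obtain ⟨x, rfl⟩ := hsurj a
    obtain ⟨y, rfl⟩ := hsurj b
    rw [← map_add, key, key, key, ← map_add]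
    congr 1
    apply Subtype.ext
    push_cast
    rw [map_add]
  have hmul : ∀ a b, g (a * b) = a * g b + b * g a := by
    intro a b
    obtain ⟨x, rfl⟩ := hsurj a
    obtain ⟨y, rfl⟩ := hsurj b
    rw [← map_mul, key, key, key, ← map_mul, ← map_mul, ← map_add]
    congr 1
    apply Subtype.ext
    push_cast
    rw [Derivation.leibniz, smul_eq_mul, smul_eq_mul]
  have halg : ∀ c : k, g (algebraMap k M c) = 0 := by
    intro c
    rw [← hφk, key]
    have : (⟨d ((⟨algebraMap k K c, hkO c⟩ : O) : K), hd _ (hkO c)⟩ : O) = 0 :=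
      Subtype.ext (Derivation.map_algebraMap d c)
    rw [this, map_zero]
  refine ⟨Derivation.mk' { toFun := g, map_add' := hadd, map_smul' := fun c a => ?_ }
    (fun a b => ?_), key⟩
  · rw [Algebra.smul_def, hmul, halg, mul_zero, add_zero, RingHom.id_apply, Algebra.smul_def]
  · exact hmul a b

end Residual

section Denom

variable {A K : Type*} [CommRing A] [IsDomain A] [Field K] [Algebra A K] [IsFractionRing A K]

/-- (4) A common denominator outside finitely many primes. -/
theorem exists_denom_primes {ι : Type*} (s : Finset ι) (q : ι → Ideal A) (hq : ∀ i ∈ s, (q i).IsPrime)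
    (X : Finset K) (hX : ∀ i ∈ s, ∀ x ∈ X, InLoc (q i) x) :
    ∃ g : A, (∀ i ∈ s, g ∉ q i) ∧ ∀ x ∈ X, ∃ a : A, algebraMap A K a = algebraMap A K g * x := by
  classical
  let I : Ideal A :=
    { carrier := {g | ∀ x ∈ X, ∃ a : A, algebraMap A K a = algebraMap A K g * x}
      zero_mem' := fun x _ => ⟨0, by simp⟩
      add_mem' := by
        intro g h hg hh x hx
        obtain ⟨a, ha⟩ := hg x hx
        obtain ⟨b, hb⟩ := hh x hx
        exact ⟨a + b, by rw [map_add, map_add, ha, hb]; ring⟩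
      smul_mem' := by
        intro c g hg x hx
        obtain ⟨a, ha⟩ := hg x hx
        exact ⟨c * a, by rw [map_mul, smul_eq_mul, map_mul, ha]; ring⟩ }
  by_contra hcon
  push Not at hcon
  have h1 : (I : Set A) ⊆ ⋃ i ∈ (s : Set ι), (q i : Set A) := by
    intro g hg
    by_contra hg'
    simp only [Set.mem_iUnion, not_exists] at hg'
    obtain ⟨x, hx, h2⟩ := hcon g fun i hi h => hg' i hi h
    obtain ⟨a, ha⟩ := hg x hx
    exact h2 a ha
  have h2 : ∃ i ∈ s, I ≤ q i := by
    by_cases hs : s.Nonempty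
    · obtain ⟨i0, hi0⟩ := hs
      exact (Ideal.subset_union_prime i0 i0 fun i hi _ _ => hq i hi).1 h1
    · rw [Finset.not_nonempty_iff_eq_empty] at hs
      subst hs
      have : (0 : A) ∈ (I : Set A) := I.zero_mem
      have := h1 this
      simp at this
  obtain ⟨i, hi, hIq⟩ := h2
  have hqi := hq i hi
  -- a common denominator at `q i`
  have h3 : ∀ Y : Finset K, (∀ x ∈ Y, InLoc (q i) x) →
      ∃ g, g ∉ q i ∧ ∀ x ∈ Y, ∃ a : A, algebraMap A K a = algebraMap A K g * x := by
    intro Y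
    induction Y using Finset.induction_on with
    | empty => exact fun _ => ⟨1, fun h => hqi.ne_top ((Ideal.eq_top_iff_one _).2 h), by simp⟩
    | insert y Y _ ih =>
      intro hY
      obtain ⟨g, hg, hgY⟩ := ih fun x hx => hY x (Finset.mem_insert_of_mem hx)
      obtain ⟨a, t, ht, e⟩ := hY y (Finset.mem_insert_self _ _)
      refine ⟨g * t, fun h => (hqi.mem_or_mem h).elim hg ht, fun x hx => ?_⟩
      rcases Finset.mem_insert.1 hx with rfl | hx
      · exact ⟨g * a, by rw [map_mul, map_mul, ← e]; ring⟩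
      · obtain ⟨b, hb⟩ := hgY x hx
        exact ⟨b * t, by rw [map_mul, map_mul, hb]; ring⟩
  obtain ⟨g, hg, hgX⟩ := h3 X fun x hx => hX i hi x hx
  exact hg (hIq hgX)

end Denom

section Val

variable {K : Type*} [Field K]

/-- helper4's order is an order. -/
theorem isOrd_ordV {V : ValuationSubring K} (hV : TGh4.Disc V) :
    IsOrd V.toSubring (TGh4.ordV V) :=
  ⟨fun _ _ hx hy => TGh4.ordV_mul V hx hy, fun _ hx => TGh4.mem_iff hV hx⟩

variable {A : Type*} [CommRing A] [IsDomain A] [Algebra A K] [IsFractionRing A K]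
  [IsNoetherianRing A] [IsIntegrallyClosed A]

theorem isOrd_valP {P : Ideal A} [P.IsPrime] (h : P.height = 1) :
    IsOrd (locP K P) (TGh4.ordV (valP K P h)) :=
  isOrd_ordV (TG51.disc_valP h)

end Val

end Pool.Agent.TGJ
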