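import Pool.Agent.Lib.TGJ.Iface
import Pool.Agent.Lib.TGJ_h88.Locx

/-!
# TANK G, block C, DivCorr (D3), (D4): prime divisors of `S = C_x` seen on `C`
-/

set_option autoImplicit false

namespace Pool.Agent.TGJ

open Pool.Agent.TGJ88 (locx le_locx inv_mem_locx ne_zero_of_ev)
open Pool.Agent.TGh4 (Disc ordV IsUnif)

universe u

section

variable {k K : Type u} [Field k] [Field K] [Algebra k K] {C S : Subalgebra k K}
  {x0 : C →ₐ[k] k} {V : ValuationSubring K}

theorem val_one_of_inv_mem {c : K} (hc : c ≠ 0) (h1 : c ∈ V) (h2 : c⁻¹ ∈ V) :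
    V.valuation c = 1 := by
  rw [← ValuationSubring.valuation_le_one_iff] at h1 h2
  rw [map_inv₀] at h2
  have h3 : 0 < V.valuation c := zero_lt_iff.2 ((Valuation.ne_zero_iff _).2 hc)
  exact le_antisymm h1 ((inv_le_one₀ h3).1 h2)

/-- The elements of `C` are in `V`. -/
theorem C_le (hS : locx C x0 = S) (hV : IsDiv S V) (c : C) : (c : K) ∈ V :=
  hV.le _ (hS ▸ le_locx C x0 c.2)

/-- `V` is a localisation of `C`. -/
theorem loc_C (hS : locx C x0 = S) (hV : IsDiv S V) {z : K} (hz : z ∈ V) :
    ∃ a b : C, V.valuation (b : K) = 1 ∧ z * b = a := by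
  obtain ⟨a, ha, b, hb, hb1, hab⟩ := hV.loc z hz
  rw [← hS] at ha hb
  obtain ⟨a', s, hs, has⟩ := ha
  obtain ⟨b', t, ht, hbt⟩ := hb
  have hs1 : V.valuation (s : K) = 1 := val_one_of_inv_mem (ne_zero_of_ev hs) (C_le hS hV s)
    (hV.le _ (hS ▸ inv_mem_locx hs))
  have ht1 : V.valuation (t : K) = 1 := val_one_of_inv_mem (ne_zero_of_ev ht) (C_le hS hV t)
    (hV.le _ (hS ▸ inv_mem_locx ht))
  refine ⟨a' * t, b' * s, ?_, ?_⟩
  · push_cast
    rw [← hbt, map_mul, map_mul, hb1, ht1, hs1, mul_one, mul_one]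
  · push_cast
    rw [← hbt, ← has, ← hab]
    ring

/-- (D3) A prime divisor of `S` is determined by its trace on `C`. -/
theorem d3 (hS : locx C x0 = S) {V' : ValuationSubring K} (hV : IsDiv S V) (hV' : IsDiv S V')
    (h : ∀ c : C, V.valuation (c : K) < 1 ↔ V'.valuation (c : K) < 1) : V = V' := by
  have key : ∀ V V' : ValuationSubring K, IsDiv S V → IsDiv S V' →
      (∀ c : C, V.valuation (c : K) < 1 ↔ V'.valuation (c : K) < 1) → V ≤ V' := by
    intro V V' hV hV' h z hz
    obtain ⟨a, b, hb, hab⟩ := loc_C hS hV hz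
    have hb' : V'.valuation (b : K) = 1 := by
      have h1 : ¬ V'.valuation (b : K) < 1 := fun h2 => by
        rw [← h, hb] at h2
        exact lt_irrefl _ h2
      exact le_antisymm ((ValuationSubring.valuation_le_one_iff _ _).2 (C_le hS hV' b))
        (not_lt.1 h1)
    have ha' := C_le hS hV' a
    rw [← ValuationSubring.valuation_le_one_iff] at ha' ⊢
    rw [← hab, map_mul, hb', mul_one] at ha'
    exact ha'
  exact le_antisymm (key V V' hV hV' h) (key V' V hV' hV fun c => (h c).symm)

variable {Q : Ideal C}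

/-- The elements of `Q ^ n` have order `≥ n`. -/
theorem ordV_of_mem_pow (hd : Disc V) (hC : ∀ c : C, (c : K) ∈ V)
    (hQ : ∀ c : C, c ∈ Q → V.valuation (c : K) < 1) (n : ℕ) {c : C} (hc : c ∈ Q ^ n)
    (hc0 : c ≠ 0) : (n : ℤ) ≤ ordV V (c : K) := by
  obtain ⟨π, hπ⟩ := hd
  have key : ∀ c ∈ Q ^ n, V.valuation (c : K) ≤ V.valuation π ^ (n : ℤ) := by
    clear hc hc0
    induction n with
    | zero =>
      intro c _
      rw [Int.natCast_zero, zpow_zero]
      exact (ValuationSubring.valuation_le_one_iff _ _).2 (hC c)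
    | succ n ih =>
      intro c hc
      rw [pow_succ] at hc
      refine Submodule.mul_induction_on hc ?_ ?_
      · intro a ha b hb
        have h1 := ih a ha
        have h2 : V.valuation (b : K) ≤ V.valuation π := by
          by_cases hb0 : (b : K) = 0
          · rw [hb0, map_zero]
            exact zero_le'
          · obtain ⟨m, hm⟩ := hπ.gen b hb0
            have h3 := hQ b hb
            rw [hm, hπ.zpow_lt_one] at h3
            rw [hm]
            have h4 := hπ.zpow_le (m := m) (n := 1)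
            rw [zpow_one] at h4
            exact h4.2 (by omega)
        change V.valuation ((a : K) * (b : K)) ≤ _
        rw [map_mul]
        have h5 : V.valuation π ^ ((n + 1 : ℕ) : ℤ) = V.valuation π ^ (n : ℤ) * V.valuation π := by
          push_cast
          rw [zpow_add₀ hπ.pos.ne', zpow_one]
        rw [h5]
        exact mul_le_mul' h1 h2
      · intro a b ha hb
        exact (Valuation.map_add _ _ _).trans (max_le ha hb)
  have h1 := key c hc
  have hcK : (c : K) ≠ 0 := fun h => hc0 (Subtype.ext h)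
  rw [hπ.val hcK, hπ.zpow_le] at h1
  exact h1

/-- (D4) The order of `g` along `V` in terms of the powers of `Q`. -/
theorem d4 (hS : locx C x0 = S) (hV : IsDiv S V) (Q : Ideal C)
    (hQ : ∀ c : C, c ∈ Q ↔ V.valuation (c : K) < 1) (g : C) (hg : g ≠ 0) (n : ℕ) :
    (∃ s : C, s ∉ Q ∧ s * g ∈ Q ^ n) ↔ (n : ℤ) ≤ ordV V (g : K) := by
  have hC : ∀ c : C, (c : K) ∈ V := C_le hS hV
  have hunit : ∀ c : C, c ∉ Q → V.valuation (c : K) = 1 := fun c hc => by
    rw [hQ, not_lt] at hc
    exact le_antisymm ((ValuationSubring.valuation_le_one_iff _ _).2 (hC c)) hc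
  have hgK : (g : K) ≠ 0 := fun h => hg (Subtype.ext h)
  have hne : ∀ c : C, c ∉ Q → (c : K) ≠ 0 := fun c hc h => by
    have h1 := hunit c hc
    rw [h, map_zero] at h1
    exact zero_ne_one h1
  constructor
  · rintro ⟨s, hs, hsg⟩
    have h1 := ordV_of_mem_pow hV.disc hC (fun c hc => (hQ c).1 hc) n hsg
      (mul_ne_zero (fun h => hne s hs (congrArg Subtype.val h)) hg)
    have h2 : ((s * g : C) : K) = (s : K) * (g : K) := rfl
    rw [h2, TGh4.ordV_mul V (hne s hs) hgK,
      (TGh4.ordV_eq_zero_iff hV.disc (hne s hs)).2 (hunit s hs), zero_add] at h1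
    exact h1
  · intro hn
    obtain ⟨π, hπ⟩ := hV.disc
    have hπV : π ∈ V := (ValuationSubring.valuation_le_one_iff _ _).1 hπ.lt.le
    obtain ⟨a, b, hb, hab⟩ := loc_C hS hV hπV
    have ha : V.valuation (a : K) = V.valuation π := by
      rw [← hab, map_mul, hb, mul_one]
    have haQ : a ∈ Q := (hQ a).2 (by rw [ha]; exact hπ.lt)
    have haK : (a : K) ≠ 0 := by
      rw [← hab]
      refine mul_ne_zero hπ.ne ?_
      intro h
      rw [h, map_zero] at hb
      exact zero_ne_one hb
    have h1 : (g : K) / (a : K) ^ n ∈ V := by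
      rw [← ValuationSubring.valuation_le_one_iff, map_div₀, map_pow, ha, hπ.val hgK,
        ← zpow_natCast, ← zpow_sub₀ hπ.pos.ne', ← zpow_zero (V.valuation π), hπ.zpow_le]
      linarith
    obtain ⟨c, d, hd, hcd⟩ := loc_C hS hV h1
    refine ⟨d, ?_, ?_⟩
    · rw [hQ, hd]
      exact lt_irrefl _
    · have h2 : d * g = c * a ^ n := by
        apply Subtype.ext
        push_cast
        rw [← hcd]
        have h3 : (a : K) ^ n ≠ 0 := pow_ne_zero _ haK
        field_simp
      rw [h2]
      exact Ideal.mul_mem_left _ _ (Ideal.pow_mem_pow haQ n)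

end

end Pool.Agent.TGJ
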