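import Pool.Agent.Lib.TGJ_h11.Curve2
import Pool.Agent.Lib.TG_h76.Place

/-!
# TANK G, block C, R9, first half: orders on the residue field, `p`-expansions, Krull
-/

set_option autoImplicit false
set_option linter.unusedSectionVars false

namespace Pool.Agent.TGJ

open Pool.Agent.TG51 (InLoc locP mem_locP valP)
open Pool.Agent.TGh43 (PD PId JId)
open scoped WithZero

section Ord

variable {S M : Type*} [CommRing S] [Field M] (v : Valuation S ℤᵐ⁰) (r : S →+* M)

theorem val_eq_of_map_eq (hr : ∀ a, r a = 0 ↔ v a = 0) {a b : S} (h : r a = r b) : v a = v b := by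
  have h1 : v (a - b) = 0 := by rw [← hr, map_sub, h, sub_self]
  have h2 : a = b + (a - b) := by ring
  rw [h2]
  exact v.map_add_supp b h1

/-- The order induced on the field of fractions of the image. -/
theorem exists_ordM (hr : ∀ a, r a = 0 ↔ v a = 0)
    (hM : ∀ m : M, ∃ a b : S, r b ≠ 0 ∧ m = r a / r b) :
    ∃ ord : M → ℤ, TGh76.IsOrd ord ∧ ∀ a b : S, r a ≠ 0 → r b ≠ 0 →
      ord (r a / r b) = WithZero.log (v b) - WithZero.log (v a) := by
  choose a b hb hab using hM
  obtain ⟨ord, hord⟩ : ∃ ord : M → ℤ, ∀ m, ord m = WithZero.log (v (b m)) - WithZero.log (v (a m)) :=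
    ⟨_, fun _ => rfl⟩
  have hv : ∀ c : S, r c ≠ 0 → v c ≠ 0 := fun c hc h => hc ((hr c).2 h)
  have key : ∀ c d : S, r c ≠ 0 → r d ≠ 0 →
      ord (r c / r d) = WithZero.log (v d) - WithZero.log (v c) := by
    intro c d hc hd
    rw [hord]
    have h1 := hab (r c / r d)
    have hb' := hb (r c / r d)
    have ha' : r (a (r c / r d)) ≠ 0 := by
      intro h0
      rw [h0, zero_div, div_eq_zero_iff] at h1
      exact h1.elim hc hd
    rw [div_eq_div_iff hd hb', ← map_mul, ← map_mul] at h1
    have h2 := val_eq_of_map_eq v r hr h1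
    rw [map_mul, map_mul] at h2
    have h3 := congrArg WithZero.log h2
    rw [WithZero.log_mul (hv _ hc) (hv _ hb'), WithZero.log_mul (hv _ ha') (hv _ hd)] at h3
    linarith
  refine ⟨ord, ⟨?_, ?_⟩, key⟩
  · intro x y hx hy
    have hax : r (a x) ≠ 0 := by
      intro h0; apply hx; rw [hab x, h0, zero_div]
    have hay : r (a y) ≠ 0 := by
      intro h0; apply hy; rw [hab y, h0, zero_div]
    have h1 : x * y = r (a x * a y) / r (b x * b y) := by
      rw [map_mul, map_mul, mul_div_mul_comm, ← hab x, ← hab y]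
    rw [h1, key _ _ (by rw [map_mul]; exact mul_ne_zero hax hay)
      (by rw [map_mul]; exact mul_ne_zero (hb x) (hb y)), hord x, hord y, map_mul, map_mul,
      WithZero.log_mul (hv _ (hb x)) (hv _ (hb y)), WithZero.log_mul (hv _ hax) (hv _ hay)]
    ring
  · intro x y hx hy hxy
    have hax : r (a x) ≠ 0 := by
      intro h0; apply hx; rw [hab x, h0, zero_div]
    have hay : r (a y) ≠ 0 := by
      intro h0; apply hy; rw [hab y, h0, zero_div]
    have h1 : x + y = r (a x * b y + b x * a y) / r (b x * b y) := by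
      rw [map_add, map_mul, map_mul, map_mul, ← div_add_div _ _ (hb x) (hb y), ← hab x, ← hab y]
    have hn : r (a x * b y + b x * a y) ≠ 0 := by
      intro h0; apply hxy; rw [h1, h0, zero_div]
    rw [h1, key _ _ hn (by rw [map_mul]; exact mul_ne_zero (hb x) (hb y)), hord x, hord y,
      map_mul, WithZero.log_mul (hv _ (hb x)) (hv _ (hb y))]
    rcases le_total (v (a x * b y)) (v (b x * a y)) with h2 | h2
    · have h3 : v (a x * b y + b x * a y) ≤ v (b x * a y) := by
        refine (v.map_add _ _).trans (max_le h2 le_rfl)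
      rw [map_mul] at h3
      have h4 := (WithZero.log_le_log (hv _ hn) (mul_ne_zero (hv _ (hb x)) (hv _ hay))).2 h3
      rw [WithZero.log_mul (hv _ (hb x)) (hv _ hay)] at h4
      refine (min_le_right _ _).trans ?_
      linarith
    · have h3 : v (a x * b y + b x * a y) ≤ v (a x * b y) := by
        refine (v.map_add _ _).trans (max_le le_rfl h2)
      rw [map_mul] at h3
      have h4 := (WithZero.log_le_log (hv _ hn) (mul_ne_zero (hv _ hax) (hv _ (hb y)))).2 h3
      rw [WithZero.log_mul (hv _ hax) (hv _ (hb y))] at h4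
      refine (min_le_left _ _).trans ?_
      linarith

end Ord

section PExp

variable {k K M : Type*} [Field k] [Field K] [Algebra k K] [Field M] {p : ℕ} [hp : Fact p.Prime]
  [CharP K p] {n : ℕ} {f : Fin n → K} {D : Fin n → Derivation k K K}

/-- The `p`-expansion passes to the residue field, where all `f_j`, `j ≠ i`, vanish. -/
theorem pexp_residue (h : PD p f D) (T : Subring K) (hT : ∀ i, ∀ t ∈ T, D i t ∈ T)
    (hf : ∀ i, f i ∈ T) (hr : ∀ b : K, b ^ p ∈ T → b ∈ T) (φ : T →+* M)
    (hφ : Function.Surjective φ) (i : Fin n) (hi : ∀ j, j ≠ i → φ ⟨f j, hf j⟩ = 0) (g : M) :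
    ∃ a : ℕ → M, g = ∑ r ∈ Finset.range p, φ ⟨f i, hf i⟩ ^ r * a r ^ p := by
  classical
  have hz : NeZero p := ⟨hp.out.ne_zero⟩
  obtain ⟨x, rfl⟩ := hφ g
  obtain ⟨c, hc, hx⟩ := h.gen T hT hf hr x.2
  have h1 : φ x = ∑ μ : Fin n → Fin p, (∏ j, φ ⟨f j, hf j⟩ ^ (μ j : ℕ)) * φ ⟨c μ, hc μ⟩ ^ p := by
    have h2 : x = ∑ μ : Fin n → Fin p, (∏ j, (⟨f j, hf j⟩ : T) ^ (μ j : ℕ)) * ⟨c μ, hc μ⟩ ^ p := by
      apply Subtype.ext
      rw [hx]
      push_cast
      rfl
    conv_lhs => rw [h2]
    rw [map_sum]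
    refine Finset.sum_congr rfl fun μ _ => ?_
    rw [map_mul, map_pow, map_prod]
    congr 1
    exact Finset.prod_congr rfl fun j _ => map_pow φ _ _
  let e : Fin p → (Fin n → Fin p) := fun r => Function.update 0 i r
  have he : Function.Injective e := by
    intro r s hrs
    have := congrFun hrs i
    simpa [e] using this
  have hei : ∀ r, e r i = r := fun r => by simp [e]
  have hej : ∀ r j, j ≠ i → e r j = 0 := fun r j hj => by simp [e, hj]
  refine ⟨fun r => if hr : r < p then φ ⟨c (e ⟨r, hr⟩), hc _⟩ else 0, ?_⟩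
  rw [h1, Finset.sum_range]
  symm
  refine Fintype.sum_of_injective e he _ _ ?_ ?_
  · intro μ hμ
    have h2 : ∃ j, j ≠ i ∧ μ j ≠ 0 := by
      by_contra hcon
      push Not at hcon
      apply hμ
      refine ⟨μ i, ?_⟩
      funext j
      by_cases hj : j = i
      · rw [hj, hei]
      · rw [hej _ _ hj, hcon j hj]
    obtain ⟨j, hj, hj0⟩ := h2
    have h3 : φ ⟨f j, hf j⟩ ^ (μ j : ℕ) = 0 := by
      rw [hi j hj, zero_pow]
      intro h4
      apply hj0
      exact Fin.ext h4
    rw [Finset.prod_eq_zero (Finset.mem_univ j) h3, zero_mul]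
  · intro r
    beta_reduce
    rw [dif_pos r.2]
    congr 1
    rw [← Finset.prod_erase_mul Finset.univ _ (Finset.mem_univ i), hei,
      Finset.prod_eq_one, one_mul]
    intro j hj
    rw [hej r j (Finset.ne_of_mem_erase hj)]
    exact pow_zero _

end PExp

section Krull

variable {S : Type*} [CommRing S] [IsNoetherianRing S]

/-- If `m` is the only prime over `(w, u)` then a prime `q ≠ m` which contains `w` is minimal over
`(w)`. -/
theorem minimal_of_param {I : Ideal S} {u : S} {m q : Ideal S} [hm : m.IsMaximal]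
    (hmax : ∀ Q : Ideal S, Q.IsPrime → I ≤ Q → u ∈ Q → Q = m) (hq : q.IsPrime) (hIq : I ≤ q)
    (hqm : q < m) (hIm : I ≤ m) (hum : u ∈ m) : q ∈ I.minimalPrimes := by
  refine ⟨⟨hq, hIq⟩, ?_⟩
  rintro Q ⟨hQ, hIQ⟩ hQq
  by_contra hcon
  have hQq' : Q < q := lt_of_le_of_ne hQq fun h => hcon (h ▸ le_rfl)
  -- pass to `S / Q`
  let π := Ideal.Quotient.mk Q
  have hsurj : Function.Surjective π := Ideal.Quotient.mk_surjective
  have hker : RingHom.ker π = Q := Ideal.mk_ker
  have hmin : m.map π ∈ (Ideal.span {π u}).minimalPrimes := by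
    have hmp : (m.map π).IsPrime := Ideal.map_isPrime_of_surjective hsurj (by
      rw [hker]; exact hQq.trans hqm.le)
    refine ⟨⟨hmp, ?_⟩, ?_⟩
    · rw [Ideal.span_singleton_le_iff_mem]
      exact Ideal.mem_map_of_mem π hum
    · rintro P ⟨hP, hPu⟩ _
      have h1 : (P.comap π).IsPrime := Ideal.comap_isPrime π P
      have h2 : Q ≤ P.comap π := fun x hx => by
        rw [Ideal.mem_comap]
        have : π x = 0 := Ideal.Quotient.eq_zero_iff_mem.2 hx
        rw [this]
        exact P.zero_mem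
      have h3 : P.comap π = m := hmax _ h1 (hIQ.trans h2)
        (hPu (Ideal.mem_span_singleton_self _))
      rw [← h3, Ideal.map_comap_of_surjective π hsurj]
  have h1 : (m.map π).height ≤ 1 := Ideal.height_le_one_of_isPrincipal_of_mem_minimalPrimes _ _ hmin
  have hqp : (q.map π).IsPrime := Ideal.map_isPrime_of_surjective hsurj (by rw [hker]; exact hQq)
  have hlt1 : q.map π < m.map π := by
    refine lt_of_le_of_ne (Ideal.map_mono hqm.le) fun h => ?_
    have h2 : (q.map π).comap π = (m.map π).comap π := by rw [h]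
    rw [Ideal.comap_map_of_surjective π hsurj, Ideal.comap_map_of_surjective π hsurj,
      ← RingHom.ker_eq_comap_bot, hker, sup_eq_left.2 hQq,
      sup_eq_left.2 (hQq.trans hqm.le)] at h2
    exact hqm.ne h2
  have hlt0 : (⊥ : Ideal (S ⧸ Q)) < q.map π := by
    rw [bot_lt_iff_ne_bot]
    intro h
    have h2 : (q.map π).comap π = (⊥ : Ideal (S ⧸ Q)).comap π := by rw [h]
    rw [Ideal.comap_map_of_surjective π hsurj, ← RingHom.ker_eq_comap_bot, hker,
      sup_eq_left.2 hQq] at h2
    exact hQq'.ne h2.symm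
  have hbp : (⊥ : Ideal (S ⧸ Q)).IsPrime := Ideal.isPrime_bot
  have h3 : (1 : ℕ∞) + 1 ≤ (m.map π).height := by
    have hmp : (m.map π).IsPrime := hmin.1.1
    have h4 : (q.map π).height + 1 ≤ (m.map π).height :=
      Ideal.height_add_one_le_of_lt_of_isPrime hlt1
    have h5 : (⊥ : Ideal (S ⧸ Q)).height + 1 ≤ (q.map π).height :=
      Ideal.height_add_one_le_of_lt_of_isPrime hlt0
    have h6 : (1 : ℕ∞) ≤ (q.map π).height := le_trans (by simp) h5
    exact le_trans (add_le_add h6 le_rfl) h4
  have h7 := h3.trans h1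
  exact absurd h7 (by decide)

end Krull

end Pool.Agent.TGJ
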