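import Pool.Agent.Lib.TGJ_h11.DerPlA
import Pool.Agent.Lib.TGJ_h11.ExD

/-!
# TANK G, block C, R9: the place form of lemma 3
-/

set_option autoImplicit false
set_option linter.unusedSectionVars false

namespace Pool.Agent.TGJ

open Pool.Agent.TG51 (InLoc locP mem_locP valP)
open Pool.Agent.TGh43 (PD PId JId)
open Pool.Agent.TGh4 (Disc ordV)
open scoped WithZero

universe u

section

variable {k K : Type u} [Field k] [Field K] [Algebra k K] {S : Subalgebra k K} {res : S →ₐ[k] k}
  {v : Valuation S ℤᵐ⁰}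

theorem ker_res_isMaximal : (RingHom.ker res).IsMaximal :=
  RingHom.ker_isMaximal_of_surjective res fun c => ⟨algebraMap k S c, res.commutes c⟩

theorem IsCv.res_eq_zero (hv : IsCv res v) {a : S} (ha : v a = 0) : res a = 0 := by
  by_contra h
  rw [hv.one a h] at ha
  exact one_ne_zero ha

theorem IsCv.supp_lt (hv : IsCv res v) : v.supp < RingHom.ker res := by
  refine lt_of_le_of_ne (fun a ha => hv.res_eq_zero ha) fun h => ?_
  obtain ⟨a, ha, ha'⟩ := hv.ne
  exact ha' (by
    have h1 : a ∈ RingHom.ker res := ha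
    rw [← h] at h1
    exact h1)

/-- The support of a place of a curve does not contain a system of parameters. -/
theorem IsCv.not_proper (hv : IsCv res v) {L : Type u} [Field L] [Algebra k L] {φ : S →ₐ[k] L}
    {m : ℕ} {w : Fin m → S} (hw : Proper φ res w) (hker : RingHom.ker φ ≤ v.supp)
    (h : ∀ l, v (w l) = 0) : False :=
  hv.supp_lt.ne (hw.2 v.supp inferInstance hker h)

/-- `ker (toRes S V) = cen S V`. -/
theorem ker_toRes (V : ValuationSubring K) : RingHom.ker (toRes S V) = cen S V := by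
  ext a
  rw [RingHom.mem_ker]
  exact Ideal.algebraMap_residueField_eq_zero

/-- `R_f` does not contain the curve. -/
theorem ramV_eq_zero {n m : ℕ} {f : Fin n → S} {w : Fin m → S} (hR : ProperR S res w f)
    (hv : IsCv res v) (hw : ∀ l, v (w l) = 0) {V : ValuationSubring K} (hV : IsDiv S V)
    (hle : cen S V ≤ v.supp) : ramV V f = 0 := by
  by_contra h
  exact hv.not_proper (hR V hV h) (by rw [ker_toRes]; exact hle) hw

variable {n : ℕ} {f : Fin n → S} {D : Fin n → Derivation k K K}

/-- The derivations preserve `S_q` if `R_f` does not contain `q`. -/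
theorem pres_q [IsFractionRing S K] (hS : NPt S res) (hD : Dual (fun i => (f i : K)) D)
    (q : Ideal S) [hq : q.IsPrime]
    (hhart : ∀ x : K, (∀ V, IsDiv S V → cen S V ≤ q → x ∈ V) → InLoc q x)
    (h0 : ∀ V : ValuationSubring K, IsDiv S V → cen S V ≤ q → ramV V f = 0) (i : Fin n) :
    Pres (locP K q) (D i) := by
  obtain ⟨c, -, hb⟩ := ramV_bound hS hD
  intro x hx
  refine hhart _ fun V hV hVq => ?_
  have h1 : x ∈ V := by
    obtain ⟨a, s, hs, e⟩ := hx
    have hs' : s ∉ cen S V := fun h => hs (hVq h)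
    rw [mem_cen hV.le] at hs'
    have hsV : (s : K) ∈ V := hV.le _ s.2
    have hs1 : V.valuation (s : K) = 1 :=
      le_antisymm ((ValuationSubring.valuation_le_one_iff _ _).2 hsV) (not_lt.1 hs')
    have haV : (a : K) ∈ V := hV.le _ a.2
    rw [← ValuationSubring.valuation_le_one_iff] at haV ⊢
    have h2 : V.valuation (x * (s : K)) = V.valuation (a : K) := congrArg _ e
    rw [map_mul, hs1, mul_one] at h2
    rw [h2]
    exact haV
  exact pres_of_rram (isOrd_of_isDiv hV) (fun j => hV.le _ (f j).2) (hb V hV).1 hD (h0 V hV hVq) i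
    x h1

section Place

variable {m : ℕ} {p : ℕ} [hp : Fact p.Prime] [CharP K p]

/-- The core of `DerPl` with the fine input on the place. -/
theorem derPl_core [IsNoetherianRing S] [IsIntegrallyClosed S] [IsFractionRing S K]
    (hS : NPt S res)
    (hhart : ∀ (q : Ideal S), q.IsPrime → ∀ x : K,
      (∀ V, IsDiv S V → cen S V ≤ q → x ∈ V) → InLoc q x)
    (f : Fin (m + 1) → S) (hf : Proper S.val res f) (D : Fin (m + 1) → Derivation k K K)
    (hD : Dual (fun i => (f i : K)) D) (hPD : PD p (fun i => (f i : K)) D) (i : Fin (m + 1))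
    (hR : ProperR S res (f ∘ i.succAbove) f) (v : Valuation S ℤᵐ⁰) (hv : IsCv res v)
    (hvw : ∀ j, v (f (i.succAbove j)) = 0) (hu : ¬ (p : ℤ) ∣ WithZero.log (v (f i)))
    (N : ℕ) (hN : N < p) (G' ε : S) (hε : res ε ≠ 0) (c c' : Fin N → k)
    (h : ∀ a ∈ ({c, c'} : Set (Fin N → k)), ∀ b e : S, v b ≠ 0 →
      (b : K) * D i (G' + ε * ∑ j : Fin N, algebraMap k S (a j) * f i ^ (j.1 + 1) : S) = e →
        v e ≤ v b * v (f i) ^ N) : c = c' := by
  classical
  have hvw' : ∀ j, j ≠ i → v (f j) = 0 := by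
    intro j hj
    obtain ⟨l, rfl⟩ := Fin.exists_succAbove_eq hj
    exact hvw l
  have hui : v (f i) ≠ 0 := by
    intro h0
    refine hv.not_proper hf ?_ fun j => ?_
    · intro a ha
      have : a = 0 := Subtype.ext ha
      rw [this]
      exact Ideal.zero_mem _
    · by_cases hj : j = i
      · rw [hj]; exact h0
      · exact hvw' j hj
  have hupos : v (f i) < 1 := hv.lt _ (hf.1 i)
  obtain ⟨q, hq⟩ : ∃ q, q = v.supp := ⟨_, rfl⟩
  have hqp : q.IsPrime := by rw [hq]; infer_instance
  have hmemq : ∀ a, a ∈ q ↔ v a = 0 := fun a => by rw [hq]; rfl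
  -- the derivations preserve `S_q`
  have hpres : ∀ j, Pres (locP K q) (D j) := pres_q hS hD q (hhart q hqp) fun V hV hVq =>
    ramV_eq_zero hR hv hvw hV (by rw [← hq]; exact hVq)
  -- minimality
  obtain ⟨J, hJ⟩ : ∃ J : Finset (Fin (m + 1)), J = Finset.univ.erase i := ⟨_, rfl⟩
  have hmemJ : ∀ j, j ∈ J ↔ j ≠ i := fun j => by rw [hJ]; simp
  have hkm : (RingHom.ker res).IsMaximal := ker_res_isMaximal
  have hmin : q ∈ (fId f J).minimalPrimes := by
    refine minimal_of_param (u := f i) (m := RingHom.ker res) ?_ hqp ?_ (by rw [hq]; exact hv.supp_lt)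
      ?_ (hf.1 i)
    · intro Q hQ hIQ huQ
      refine hf.2 Q hQ ?_ fun j => ?_
      · intro a ha
        have : a = 0 := Subtype.ext ha
        rw [this]
        exact Q.zero_mem
      · by_cases hj : j = i
        · rw [hj]; exact huQ
        · exact hIQ (Ideal.subset_span ⟨j, (hmemJ j).2 hj, rfl⟩)
    · unfold fId
      rw [Ideal.span_le]
      rintro _ ⟨j, hj, rfl⟩
      exact (hmemq _).2 (hvw' j ((hmemJ j).1 hj))
    · unfold fId
      rw [Ideal.span_le]
      rintro _ ⟨j, _, rfl⟩
      exact hf.1 j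
  -- the residue field
  let M := FractionRing (S ⧸ q)
  let r : S →+* M := (algebraMap (S ⧸ q) M).comp (Ideal.Quotient.mk q)
  have hrq : ∀ a, r a = 0 ↔ a ∈ q := by
    intro a
    change algebraMap (S ⧸ q) M (Ideal.Quotient.mk q a) = 0 ↔ _
    rw [FaithfulSMul.algebraMap_eq_zero_iff, Ideal.Quotient.eq_zero_iff_mem]
  have hrker : RingHom.ker r = q := by
    ext a
    rw [RingHom.mem_ker]
    exact hrq a
  have hrM : ∀ x : M, ∃ a b : S, r b ≠ 0 ∧ x = r a / r b := by
    intro x
    obtain ⟨a, b, hb, rfl⟩ := IsFractionRing.div_surjective (A := S ⧸ q) x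
    obtain ⟨a, rfl⟩ := Ideal.Quotient.mk_surjective a
    obtain ⟨b, rfl⟩ := Ideal.Quotient.mk_surjective b
    refine ⟨a, b, ?_, rfl⟩
    change algebraMap (S ⧸ q) M (Ideal.Quotient.mk q b) ≠ 0
    rw [Ne, FaithfulSMul.algebraMap_eq_zero_iff]
    exact nonZeroDivisors.ne_zero hb
  obtain ⟨φ, hφr, hφ⟩ := exists_res (K := K) q r hrker
  have hφs : Function.Surjective φ := res_surj hφ fun x => by
    obtain ⟨a, b, hb, rfl⟩ := hrM x
    exact ⟨⟨algebraMap S K a, map_mem_locP K q a⟩, ⟨algebraMap S K b, map_mem_locP K q b⟩,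
      by rw [hφr]; exact hb, by rw [hφr, hφr]⟩
  have hkq : ∀ c : k, algebraMap k K c ∈ locP K q := fun c =>
    map_mem_locP K q (algebraMap k S c)
  have hφk : ∀ c : k, φ ⟨algebraMap k K c, hkq c⟩ = algebraMap k M c := by
    intro c
    have h1 := hφr (algebraMap k S c)
    have h2 : r (algebraMap k S c) = algebraMap k M c := by
      change algebraMap (S ⧸ q) M (Ideal.Quotient.mk q (algebraMap k S c)) = _
      rw [IsScalarTower.algebraMap_apply k (S ⧸ q) M]
      rfl
    rw [← h2, ← h1]
    rfl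
  -- the induced derivation
  have hiJ : i ∉ J := fun h => (hmemJ i).1 h rfl
  obtain ⟨δ, hδ⟩ := exists_residual (M := M) (locP K q) hkq φ hφk hφs (D i) (hpres i)
    fun x hx => (hφ _).2 (der_mem_maxP hPD hmin hpres hiJ ((hφ x).1 hx))
  -- the order
  obtain ⟨ord, hord, hord'⟩ := exists_ordM v r (fun a => by rw [hrq, hmemq]) hrM
  have hord1 : ∀ a : S, r a ≠ 0 → ord (r a) = - WithZero.log (v a) := by
    intro a ha
    have h1 := hord' a 1 ha (by rw [map_one]; exact one_ne_zero)
    rw [map_one, div_one, map_one, WithZero.log_one, zero_sub] at h1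
    exact h1
  have hri : r (f i) ≠ 0 := by
    rw [Ne, hrq, hmemq]
    exact hui
  have hDu : δ (r (f i)) = 1 := by
    have h1 := hφr (f i)
    rw [← h1, hδ, ← map_one φ]
    congr 1
    apply Subtype.ext
    have h2 := hD.dual i i
    rw [if_pos rfl] at h2
    exact h2
  have hordu : 0 < ord (r (f i)) := by
    rw [hord1 _ hri]
    have h1 := (WithZero.log_lt_log hui one_ne_zero).2 hupos
    rw [WithZero.log_one] at h1
    linarith
  have hchM : CharP M p := by
    have h1 : CharP k p := (algebraMap k K).charP (algebraMap k K).injective p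
    exact charP_of_injective_algebraMap (algebraMap k M).injective p
  have hbasis : ∀ g : M, ∃ a : ℕ → M, g = ∑ s ∈ Finset.range p, r (f i) ^ s * a s ^ p := by
    intro g
    obtain ⟨a, ha⟩ := pexp_residue hPD (locP K q) hpres (fun j => map_mem_locP K q (f j))
      (fun _ hb => root_locP q hp.out.pos hb) φ hφs i (fun j hj => by
        have h1 := hφr (f j)
        rw [show φ ⟨(f j : K), map_mem_locP K q (f j)⟩ = r (f j) from h1, hrq, hmemq]
        exact hvw' j hj) g
    refine ⟨a, ?_⟩
    rw [ha]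
    have h1 : φ ⟨(f i : K), map_mem_locP K q (f i)⟩ = r (f i) := hφr (f i)
    rw [h1]
  have hvε : v ε = 1 := hv.one _ hε
  have hrε : r ε ≠ 0 := by
    rw [Ne, hrq, hmemq, hvε]
    exact one_ne_zero
  obtain ⟨mm, hmm⟩ : ∃ mm : Fin N → M, ∀ j, mm j = r ε * r (f i) ^ (j.1 + 1) := ⟨_, fun _ => rfl⟩
  have hmm0 : ∀ j, mm j ≠ 0 := fun j => by
    rw [hmm]
    exact mul_ne_zero hrε (pow_ne_zero _ hri)
  have hmmo : ∀ j : Fin N, ord (mm j) = ((j : ℕ) + 1) * ord (r (f i)) := by
    intro j
    rw [hmm, hord.mul _ _ hrε (pow_ne_zero _ hri), hord.pow _ hri, hord1 ε hrε, hvε,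
      WithZero.log_one]
    push_cast
    ring
  have hk0 : ∀ a : k, a ≠ 0 → ord (algebraMap k M a) = 0 := by
    intro a ha
    have h2 : r (algebraMap k S a) = algebraMap k M a := by
      change algebraMap (S ⧸ q) M (Ideal.Quotient.mk q (algebraMap k S a)) = _
      rw [IsScalarTower.algebraMap_apply k (S ⧸ q) M]
      rfl
    have h3 : v (algebraMap k S a) = 1 := hv.one _ (by
      rw [AlgHom.commutes]
      exact ha)
    rw [← h2, hord1, h3, WithZero.log_one, neg_zero]
    rw [Ne, hrq, hmemq, h3]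
    exact one_ne_zero
  -- the bound
  have hbound : ∀ a ∈ ({c, c'} : Set (Fin N → k)),
      δ (r G' + ∑ j, algebraMap k M (a j) * mm j) = 0 ∨
        N * ord (r (f i)) ≤ ord (δ (r G' + ∑ j, algebraMap k M (a j) * mm j)) := by
    intro a ha
    obtain ⟨G, hG⟩ : ∃ G : S, G = G' + ε * ∑ j : Fin N, algebraMap k S (a j) * f i ^ (j.1 + 1) :=
      ⟨_, rfl⟩
    have h1 : r G = r G' + ∑ j, algebraMap k M (a j) * mm j := by
      rw [hG, map_add, map_mul, map_sum, Finset.mul_sum]
      congr 1
      refine Finset.sum_congr rfl fun j _ => ?_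
      rw [map_mul, map_pow, hmm]
      have h2 : r (algebraMap k S (a j)) = algebraMap k M (a j) := by
        change algebraMap (S ⧸ q) M (Ideal.Quotient.mk q (algebraMap k S (a j))) = _
        rw [IsScalarTower.algebraMap_apply k (S ⧸ q) M]
        rfl
      rw [h2]
      ring
    rw [← h1]
    have hGl : (G : K) ∈ locP K q := map_mem_locP K q G
    obtain ⟨e, b, hb, hbe⟩ := hpres i (G : K) hGl
    have h2 : δ (r G) = r e / r b := by
      have h3 : φ ⟨(G : K), hGl⟩ = r G := hφr G
      have h4 := hδ ⟨(G : K), hGl⟩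
      rw [h3] at h4
      rw [h4]
      have hrb : r b ≠ 0 := by
        rw [Ne, hrq]
        exact hb
      rw [eq_div_iff hrb]
      have h5 : φ ⟨(b : K), map_mem_locP K q b⟩ = r b := hφr b
      have h6 : φ ⟨(e : K), map_mem_locP K q e⟩ = r e := hφr e
      rw [← h5, ← h6, ← map_mul]
      congr 1
      exact Subtype.ext hbe
    have hvb : v b ≠ 0 := fun h => hb ((hmemq b).2 h)
    have h3 := h a ha b e hvb (by
      rw [← hG, mul_comm]
      exact hbe)
    by_cases he0 : r e = 0
    · left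
      rw [h2, he0, zero_div]
    · right
      have hve : v e ≠ 0 := by
        intro h0
        apply he0
        rw [hrq, hmemq]
        exact h0
      have hrb : r b ≠ 0 := by
        rw [Ne, hrq]
        exact hb
      rw [h2, hord' e b he0 hrb, hord1 _ hri]
      have h4 := (WithZero.log_le_log hve (mul_ne_zero hvb (pow_ne_zero N hui))).2 h3
      rw [WithZero.log_mul hvb (pow_ne_zero N hui), WithZero.log_pow, nsmul_eq_mul] at h4
      linarith
  exact hord.unique_coeff_der δ hri (by
    rw [hord1 _ hri, dvd_neg]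
    exact hu) hDu hbasis hk0 hordu hN mm hmm0 hmmo (r G') (hbound c (Or.inl rfl))
    (hbound c' (Or.inr rfl))

end Place

end

end Pool.Agent.TGJ
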