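import Pool.Agent.Lib.TGJ_h11.ExD4
import Pool.Agent.Lib.TGJ_h11.DerPl
import Pool.Agent.Lib.TGJ_h12.Lem3

/-!
# TANK G, block C: `Lem3` and `Agree` from F1, F2, the symmetry and R1
-/

set_option autoImplicit false

namespace Pool.Agent.TGJ

universe u

variable {k K : Type u} [Field k] [Field K] [Algebra k K]

theorem h12_divFin : H12.DivFin k K := fun _ _ hS g hg =>
  hS.finite_div g fun h => hg (by rw [h]; rfl)

theorem h12_rhoPos (h1 : IsAlgClosed k → InR1 k K) : H12.RhoPos k K := fun hk S res hS n hn f hf =>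
  rho_pos_of_R1 h1 hk S res hS n hn f hf

theorem agree11 (f1 : F1 k K) (f2 : F2 k K) : Agree k K := agree_of f1 f2 h12_divFin

/-- `Lem3` from F1, F2, the symmetry and R1. -/
theorem lem3_11 (f1 : F1 k K) (f2 : F2 k K) (pm : Perm k) (h1 : IsAlgClosed k → InR1 k K) :
    Lem3 k K :=
  lem3_of f1 f2 pm (derPl f2 pm) (exDual_of_R1 h1) h12_divFin (h12_rhoPos h1)

end Pool.Agent.TGJ
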